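import Mathlib
import Pool.Agent.H34x.SL.Pade
import Pool.Agent.N746.Self.General

/-!
# Padé–Belyi maps on abc triples near a cusp
-/

set_option autoImplicit false

namespace Pool.Agent.H34x.ES

open Polynomial
open Pool.Agent.N746.Self (hom hom_add hom_eval hom_mul gcd_dvd)

/-- the real value of an integer polynomial -/
noncomputable def rv (P : ℤ[X]) (t : ℝ) : ℝ := (P.map (Int.castRingHom ℝ)).eval t

theorem rv_zero (P : ℤ[X]) : rv P 0 = (P.coeff 0 : ℝ) := by
  unfold rv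
  rw [← coeff_zero_eq_eval_zero, coeff_map]
  rfl

theorem rv_near (P : ℤ[X]) (h : P.coeff 0 ≠ 0) : ∃ δ : ℝ, 0 < δ ∧ ∀ t : ℝ, |t| ≤ δ →
    |rv P t - (P.coeff 0 : ℝ)| ≤ |(P.coeff 0 : ℝ)| / 2 := by
  have hc : Continuous (rv P) := by
    unfold rv
    fun_prop
  have h0 : 0 < |(P.coeff 0 : ℝ)| / 2 := by
    have : (0 : ℝ) < |(P.coeff 0 : ℝ)| := abs_pos.2 (by exact_mod_cast h)
    linarith
  have h1 := hc.continuousAt (x := (0 : ℝ))
  rw [Metric.continuousAt_iff] at h1
  obtain ⟨e, he, h2⟩ := h1 _ h0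
  refine ⟨e / 2, by linarith, ?_⟩
  intro t ht
  have h3 := h2 (x := t) (by rw [Real.dist_eq, sub_zero]; linarith)
  rw [Real.dist_eq, rv_zero] at h3
  exact h3.le

theorem hom_one (d : ℕ) (x y : ℤ) : hom d (1 : ℤ[X]) x y = y ^ d := by
  unfold hom
  rw [Finset.sum_range_succ', Finset.sum_eq_zero]
  · simp
  · intro i _
    rw [coeff_one]
    simp

theorem hom_X (x y : ℤ) : hom 1 (X : ℤ[X]) x y = x := by
  unfold hom
  simp [coeff_X]

theorem hom_one_sub (x y : ℤ) : hom 1 (1 - X : ℤ[X]) x y = y - x := by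
  unfold hom
  simp [Finset.sum_range_succ, coeff_X, coeff_one]
  ring

theorem hom_pow (e : ℕ) (p : ℤ[X]) (hp : p.natDegree ≤ e) (x y : ℤ) (hy : y ≠ 0) (n : ℕ) :
    hom (e * n) (p ^ n) x y = hom e p x y ^ n := by
  induction n with
  | zero => simp [hom_one]
  | succ n ih =>
    rw [pow_succ, Nat.mul_succ, hom_mul (e * n) e _ _ (natDegree_pow_le_of_le n hp |>.trans
      (by rw [mul_comm])) hp x y hy, ih, pow_succ]

theorem one_sub_deg : (1 - X : ℤ[X]).natDegree ≤ 1 := by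
  refine (natDegree_sub_le _ _).trans ?_
  simp

/-- the common divisors of two coprime forms, for all coprime integers -/
theorem gcd_int (d : ℕ) (p q : ℤ[X]) (hp : p.natDegree ≤ d) (hq : q.natDegree ≤ d)
    (hpd : p.coeff d ≠ 0)
    (hcop : IsCoprime (p.map (Int.castRingHom ℚ)) (q.map (Int.castRingHom ℚ))) (s : ℤ)
    (hs : s = 1 ∨ s = -1) :
    ∃ Δ : ℤ, Δ ≠ 0 ∧ ∀ x y : ℕ, 0 < x → 0 < y → Nat.Coprime x y → ∀ g : ℤ,
      g ∣ hom d p (s * x) y → g ∣ hom d q (s * x) y → g ∣ Δ := by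
  rcases hs with rfl | rfl
  · obtain ⟨Δ, hΔ, h⟩ := gcd_dvd d p q hp hq (Or.inl hpd) hcop
    refine ⟨Δ, hΔ, ?_⟩
    intro x y hx hy hxy g h1 h2
    rw [one_mul] at h1 h2
    exact h x y hx hy hxy g h1 h2
  · have hdeg : ∀ r : ℤ[X], (r.comp (-X)).natDegree ≤ r.natDegree := by
      intro r
      refine natDegree_comp_le.trans ?_
      rw [natDegree_neg, natDegree_X, mul_one]
    have hhom : ∀ (r : ℤ[X]), r.natDegree ≤ d → ∀ (x y : ℤ), y ≠ 0 →
        hom d (r.comp (-X)) x y = hom d r (-1 * x) y := by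
      intro r hr x y hy
      have h : ((hom d (r.comp (-X)) x y : ℤ) : ℚ) = ((hom d r (-1 * x) y : ℤ) : ℚ) := by
        rw [hom_eval (F := ℚ) d (r.comp (-X)) ((hdeg r).trans hr) x y hy,
          hom_eval (F := ℚ) d r hr (-1 * x) y hy, map_comp, Polynomial.map_neg, map_X, eval_comp,
          eval_neg, eval_X]
        congr 2
        push_cast
        ring
      exact_mod_cast h
    have hcop' : IsCoprime ((p.comp (-X)).map (Int.castRingHom ℚ))
        ((q.comp (-X)).map (Int.castRingHom ℚ)) := by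
      rw [map_comp, map_comp, Polynomial.map_neg, map_X]
      obtain ⟨u, v, huv⟩ := hcop
      refine ⟨u.comp (-X), v.comp (-X), ?_⟩
      rw [← mul_comp, ← mul_comp, ← add_comp, huv, one_comp]
    have hpn : p.natDegree = d := le_antisymm hp (le_natDegree_of_ne_zero hpd)
    have hpd' : (p.comp (-X)).coeff d ≠ 0 := by
      have h1 : (p.comp (-X)).natDegree = d := by
        rw [natDegree_comp, natDegree_neg, natDegree_X, mul_one, hpn]
      have h2 : (p.comp (-X)).leadingCoeff ≠ 0 := by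
        rw [leadingCoeff_comp (by rw [natDegree_neg, natDegree_X]; exact one_ne_zero)]
        refine mul_ne_zero ?_ (pow_ne_zero _ ?_)
        · rw [leadingCoeff, hpn]; exact hpd
        · rw [leadingCoeff_neg, leadingCoeff_X]; norm_num
      rw [leadingCoeff, h1] at h2
      exact h2
    obtain ⟨Δ, hΔ, h⟩ := gcd_dvd d (p.comp (-X)) (q.comp (-X)) ((hdeg p).trans hp)
      ((hdeg q).trans hq) (Or.inl hpd') hcop'
    refine ⟨Δ, hΔ, ?_⟩
    intro x y hx hy hxy g h1 h2
    have hy' : (y : ℤ) ≠ 0 := by exact_mod_cast hy.ne'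
    apply h x y hx hy hxy g
    · rwa [hhom p hp x y hy']
    · rwa [hhom q hq x y hy']

/-- the first polynomial does not vanish at the cusp -/
theorem A_coeff (a b : ℕ) (A B D : ℚ[X]) (hA0 : A ≠ 0)
    (hB : B.natDegree + (X ^ (a + 1) * A : ℚ[X]).natDegree ≤ a + b + 1)
    (h : X ^ (a + 1) * A + (1 - X) ^ (b + 1) * D = B)
    (hcop : IsCoprime (X ^ (a + 1) * A) B) : A.coeff 0 ≠ 0 := by
  intro hz
  have hX : (X : ℚ[X]) ∣ A := X_dvd_iff.2 hz
  set F := X ^ (a + 1) * A with hF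
  have hFX : (X : ℚ[X]) ^ (a + 2) ∣ F := by
    obtain ⟨A', rfl⟩ := hX
    exact ⟨A', by rw [hF]; ring⟩
  have hF0 : F ≠ 0 := mul_ne_zero (pow_ne_zero _ X_ne_zero) hA0
  have h1 : (X : ℚ[X]) ^ (a + 1) ∣ wronskian F B := by
    unfold wronskian
    refine dvd_sub (Dvd.dvd.mul_right ((pow_dvd_pow _ (by omega)).trans hFX) _)
      (Dvd.dvd.mul_right ?_ _)
    have h9 := pow_sub_one_dvd_derivative_of_pow_dvd hFX
    have h8 : a + 2 - 1 = a + 1 := by omega
    rw [h8] at h9
    exact h9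
  have h2 : (1 - X : ℚ[X]) ^ b ∣ wronskian F B := by
    set G := (1 - X : ℚ[X]) ^ (b + 1) * D with hG
    have e : wronskian F B = wronskian F G := by
      rw [← h, wronskian_add_right, wronskian_self_eq_zero, zero_add]
    rw [e]
    unfold wronskian
    have h3 : (1 - X : ℚ[X]) ^ (b + 1) ∣ G := Dvd.intro _ rfl
    refine dvd_sub (Dvd.dvd.mul_left ?_ _)
      (Dvd.dvd.mul_left ((pow_dvd_pow _ (by omega)).trans h3) _)
    have h9 := pow_sub_one_dvd_derivative_of_pow_dvd h3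
    have h8 : b + 1 - 1 = b := by omega
    rw [h8] at h9
    exact h9
  have hc : IsCoprime (X : ℚ[X]) (1 - X) := ⟨1, 1, by ring⟩
  have h3 := (hc.pow (m := a + 1) (n := b)).mul_dvd h1 h2
  by_cases hw : wronskian F B = 0
  · have h4 := (hcop.wronskian_eq_zero_iff.1 hw).1
    have h5 : F.natDegree = 0 := natDegree_eq_zero_of_derivative_eq_zero h4
    have h6 := natDegree_le_of_dvd hFX hF0
    rw [natDegree_X_pow] at h6
    omega
  · have h4 := natDegree_le_of_dvd h3 hw
    have h5 := natDegree_wronskian_lt_add hw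
    have h6 : (1 - X : ℚ[X]).natDegree = 1 := by
      have : (1 - X : ℚ[X]) = -(X - C 1) := by simp
      rw [this, natDegree_neg, natDegree_X_sub_C]
    have h7 : (1 - X : ℚ[X]) ≠ 0 := by
      intro h
      rw [h] at h6
      simp at h6
    rw [natDegree_mul (pow_ne_zero _ X_ne_zero) (pow_ne_zero _ h7), natDegree_X_pow, natDegree_pow,
      h6] at h4
    omega

end Pool.Agent.H34x.ES
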