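import Mathlib
import Pool.Agent.H34x.ES.Pade

/-!
# Padé–Belyi maps on abc triples near a cusp: the values
-/

set_option autoImplicit false

namespace Pool.Agent.H34x.ES

open Polynomial
open Pool.Agent.N746.Self (hom hom_add hom_eval hom_mul gcd_dvd reduce)

theorem rv_mul (P Q : ℤ[X]) (t : ℝ) : rv (P * Q) t = rv P t * rv Q t := by
  unfold rv; rw [Polynomial.map_mul, eval_mul]

theorem rv_add (P Q : ℤ[X]) (t : ℝ) : rv (P + Q) t = rv P t + rv Q t := by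
  unfold rv; rw [Polynomial.map_add, eval_add]

theorem rv_pow (P : ℤ[X]) (n : ℕ) (t : ℝ) : rv (P ^ n) t = rv P t ^ n := by
  unfold rv; rw [Polynomial.map_pow, eval_pow]

theorem rv_X (t : ℝ) : rv X t = t := by
  unfold rv; rw [map_X, eval_X]

theorem rv_one_sub (t : ℝ) : rv (1 - X) t = 1 - t := by
  unfold rv; rw [Polynomial.map_sub, map_X, Polynomial.map_one, eval_sub, eval_X, eval_one]

/-- a value near the cusp, in terms of the sign `e` of the constant coefficient -/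
theorem val_near (r : ℕ) (P : ℤ[X]) (hP : P.natDegree ≤ r) (x z e : ℤ) (hz : 0 < z) (K : ℝ)
    (he : e = 1 ∨ e = -1) (h0 : 0 < e * P.coeff 0)
    (hK : 2 + 2 * |(P.coeff 0 : ℝ)| ≤ K)
    (hn : |rv P ((x : ℝ) / z) - (P.coeff 0 : ℝ)| ≤ |(P.coeff 0 : ℝ)| / 2) :
    ∃ y : ℕ, (y : ℤ) = e * hom r P x z ∧ 0 < y ∧ (y : ℝ) ≤ K * (z : ℝ) ^ r ∧
      (z : ℝ) ^ r ≤ K * y := by
  have hzR : (0 : ℝ) < z := by exact_mod_cast hz
  have h1 : ((hom r P x z : ℤ) : ℝ) = (z : ℝ) ^ r * rv P ((x : ℝ) / z) :=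
    hom_eval (F := ℝ) r P hP x z hz.ne'
  have h0' : (1 : ℝ) ≤ e * P.coeff 0 := by exact_mod_cast h0
  have hab : |(P.coeff 0 : ℝ)| = e * P.coeff 0 := by
    rcases he with rfl | rfl
    · push_cast at h0' ⊢
      rw [one_mul] at h0' ⊢
      exact abs_of_pos (by linarith)
    · push_cast at h0' ⊢
      rw [abs_of_neg (by linarith)]; ring
  have he2 : (e : ℝ) * e = 1 := by
    rcases he with rfl | rfl <;> norm_num
  rw [hab] at hn hK
  have hn1 : |(e : ℝ) * rv P ((x : ℝ) / z) - e * P.coeff 0| ≤ e * P.coeff 0 / 2 := by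
    rw [← mul_sub, abs_mul]
    have : |(e : ℝ)| = 1 := by
      rcases he with rfl | rfl <;> norm_num
    rw [this, one_mul]
    exact hn
  rw [abs_le] at hn1
  set w : ℝ := (e : ℝ) * rv P ((x : ℝ) / z) with hw
  set q : ℝ := (e : ℝ) * P.coeff 0 with hq
  have hw1 : (1 : ℝ) / 2 ≤ w := by linarith [hn1.1]
  have hw2 : w ≤ K := by linarith [hn1.2]
  have hv : ((e * hom r P x z : ℤ) : ℝ) = (z : ℝ) ^ r * w := by
    push_cast
    rw [h1, hw]; ring
  have hzr : (0 : ℝ) < (z : ℝ) ^ r := by positivity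
  have hpos : 0 < e * hom r P x z := by
    have : (0 : ℝ) < ((e * hom r P x z : ℤ) : ℝ) := by
      rw [hv]
      exact mul_pos hzr (by linarith)
    exact_mod_cast this
  obtain ⟨y, hy⟩ := Int.eq_ofNat_of_zero_le hpos.le
  have hyR : (y : ℝ) = (z : ℝ) ^ r * w := by
    rw [← hv, hy]; simp
  refine ⟨y, hy.symm, ?_, ?_, ?_⟩
  · rw [hy] at hpos
    exact_mod_cast hpos
  · rw [hyR, mul_comm]
    exact mul_le_mul_of_nonneg_right hw2 hzr.le
  · rw [hyR]
    have hK2 : 2 ≤ K := by linarith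
    have : 1 ≤ K * w := by nlinarith
    nlinarith

/-- **the Padé–Belyi maps near the cusp `0`** -/
theorem pade_val (r0 r1 ri : ℕ) (hodd : Odd (r1 + ri + 1)) :
    ∃ (s : ℤ) (Δ : ℕ) (K δ : ℝ), (s = 1 ∨ s = -1) ∧ 0 < Δ ∧ 1 ≤ K ∧ 0 < δ ∧
      ∀ x z z1 : ℕ, 0 < x → 0 < z → 0 < z1 → Nat.Coprime x z → (z1 : ℤ) = z - s * x →
        (x : ℝ) ≤ δ * z →
      ∃ m y0 y1 yi a b c : ℕ, m ∣ Δ ∧ 0 < m ∧ 0 < y0 ∧ 0 < y1 ∧ 0 < yi ∧ 0 < a ∧ 0 < b ∧
        Nat.Coprime a b ∧ a + b = c ∧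
        m * a = x ^ (r1 + ri + 1) * y0 ∧ m * b = z1 ^ (r0 + ri + 1) * y1 ∧
        m * c = z ^ (r0 + r1 + 1) * yi ∧
        (y0 : ℝ) ≤ K * (z : ℝ) ^ r0 ∧ (y1 : ℝ) ≤ K * (z : ℝ) ^ r1 ∧ (yi : ℝ) ≤ K * (z : ℝ) ^ ri ∧
        (z : ℝ) ^ ri ≤ K * yi := by
  obtain ⟨A, B, D, hA, hB, hD, hA0, hB0, hid, hcop⟩ := Pool.Agent.H34x.SL.pade r0 r1 ri
  have hinj : Function.Injective (Int.castRingHom ℚ) := (Int.castRingHom ℚ).injective_int
  -- constant coefficients
  have hAc : A.coeff 0 ≠ 0 := by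
    have h := A_coeff (r1 + ri) (r0 + ri) (A.map (Int.castRingHom ℚ)) (B.map (Int.castRingHom ℚ))
      (D.map (Int.castRingHom ℚ)) ((Polynomial.map_ne_zero_iff hinj).2 hA0) (by
        rw [natDegree_map_eq_of_injective hinj, hB,
          natDegree_mul (pow_ne_zero _ X_ne_zero) ((Polynomial.map_ne_zero_iff hinj).2 hA0),
          natDegree_X_pow, natDegree_map_eq_of_injective hinj, hA]
        omega) (by
        have := congrArg (Polynomial.map (Int.castRingHom ℚ)) hid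
        rw [Polynomial.map_add, Polynomial.map_mul, Polynomial.map_mul, Polynomial.map_pow,
          Polynomial.map_pow, Polynomial.map_sub, map_X, Polynomial.map_one] at this
        exact this) (by
        have h := hcop
        rw [Polynomial.map_mul, Polynomial.map_pow, map_X] at h
        exact h)
    intro h0
    apply h
    rw [coeff_map, h0, map_zero]
  have hBc : B.coeff 0 ≠ 0 := by
    intro h0
    obtain ⟨u, v, huv⟩ := hcop
    have h1 := congrArg (eval 0) huv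
    rw [eval_add, eval_mul, eval_mul, Polynomial.map_mul, Polynomial.map_pow, map_X, eval_mul,
      eval_pow, eval_X, zero_pow (by omega), eval_one, ← coeff_zero_eq_eval_zero (B.map _), coeff_map,
      h0, map_zero] at h1
    simp at h1
  have hDc : D.coeff 0 = B.coeff 0 := by
    rw [← hid, coeff_add, mul_coeff_zero, mul_coeff_zero, coeff_X_pow, if_neg (by omega), zero_mul,
      zero_add, coeff_zero_eq_eval_zero ((1 - X) ^ _), eval_pow, eval_sub, eval_one, eval_X, sub_zero,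
      one_pow, one_mul]
  obtain ⟨e, he, heB⟩ : ∃ e : ℤ, (e = 1 ∨ e = -1) ∧ 0 < e * B.coeff 0 := by
    rcases lt_or_gt_of_ne hBc with h | h
    · exact ⟨-1, Or.inr rfl, by linarith⟩
    · exact ⟨1, Or.inl rfl, by linarith⟩
  obtain ⟨f, hf, hfA⟩ : ∃ f : ℤ, (f = 1 ∨ f = -1) ∧ 0 < f * A.coeff 0 := by
    rcases lt_or_gt_of_ne hAc with h | h
    · exact ⟨-1, Or.inr rfl, by linarith⟩
    · exact ⟨1, Or.inl rfl, by linarith⟩
  have heD : 0 < e * D.coeff 0 := by rw [hDc]; exact heB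
  -- the sign
  obtain ⟨s, hs, hsef⟩ : ∃ s : ℤ, (s = 1 ∨ s = -1) ∧ e * s = f := by
    rcases he with rfl | rfl <;> rcases hf with rfl | rfl
    · exact ⟨1, Or.inl rfl, by norm_num⟩
    · exact ⟨-1, Or.inr rfl, by norm_num⟩
    · exact ⟨-1, Or.inr rfl, by norm_num⟩
    · exact ⟨1, Or.inl rfl, by norm_num⟩
  have hsm : s ^ (r1 + ri + 1) = s := by
    rcases hs with rfl | rfl
    · simp
    · exact hodd.neg_one_pow
  -- the resultant
  set k : ℕ := r0 + r1 + ri + 1 with hk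
  have hFd : (X ^ (r1 + ri + 1) * A : ℤ[X]).natDegree = k := by
    rw [natDegree_mul (pow_ne_zero _ X_ne_zero) hA0, natDegree_X_pow, hA]; omega
  obtain ⟨Δ, hΔ, hgcd⟩ := gcd_int k (X ^ (r1 + ri + 1) * A) B hFd.le (by omega) (by
    rw [← hFd, coeff_natDegree, leadingCoeff_ne_zero]
    exact mul_ne_zero (pow_ne_zero _ X_ne_zero) hA0) hcop s hs
  obtain ⟨δA, hδA, hnA⟩ := rv_near A hAc
  obtain ⟨δB, hδB, hnB⟩ := rv_near B hBc
  obtain ⟨δD, hδD, hnD⟩ := rv_near D (by rw [hDc]; exact hBc)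
  refine ⟨s, Δ.natAbs, 2 + 2 * |(A.coeff 0 : ℝ)| + 2 * |(B.coeff 0 : ℝ)|, min δA (min δB δD), hs,
    Int.natAbs_pos.2 hΔ, ?_, lt_min hδA (lt_min hδB hδD), ?_⟩
  · have h1 := abs_nonneg (A.coeff 0 : ℝ)
    have h2 := abs_nonneg (B.coeff 0 : ℝ)
    linarith
  intro x z z1 hx hz hz1 hxz hz1' hxd
  have hzZ : (0 : ℤ) < z := by exact_mod_cast hz
  have hzR : (0 : ℝ) < z := by exact_mod_cast hz
  have ht : |((s * x : ℤ) : ℝ) / ((z : ℤ) : ℝ)| ≤ min δA (min δB δD) := by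
    rw [abs_div]
    have h1 : |((s * x : ℤ) : ℝ)| = x := by
      push_cast
      rw [abs_mul, Nat.abs_cast]
      rcases hs with rfl | rfl <;> simp
    have h2 : |((z : ℤ) : ℝ)| = z := by simp
    rw [h1, h2, div_le_iff₀ hzR]
    exact hxd
  have nA := abs_nonneg (A.coeff 0 : ℝ)
  have nB := abs_nonneg (B.coeff 0 : ℝ)
  obtain ⟨y0, h0, h0p, h0K, -⟩ := val_near r0 A hA.le (s * x) z f hzZ
    (2 + 2 * |(A.coeff 0 : ℝ)| + 2 * |(B.coeff 0 : ℝ)|) hf hfA (by linarith)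
    (hnA _ (ht.trans (min_le_left _ _)))
  obtain ⟨y1, h1, h1p, h1K, -⟩ := val_near r1 D hD (s * x) z e hzZ
    (2 + 2 * |(A.coeff 0 : ℝ)| + 2 * |(B.coeff 0 : ℝ)|) he heD (by rw [hDc]; linarith)
    (hnD _ (ht.trans ((min_le_right _ _).trans (min_le_right _ _))))
  obtain ⟨yi, hi, hip, hiK, hiK'⟩ := val_near ri B hB.le (s * x) z e hzZ
    (2 + 2 * |(A.coeff 0 : ℝ)| + 2 * |(B.coeff 0 : ℝ)|) he heB (by linarith)
    (hnB _ (ht.trans ((min_le_right _ _).trans (min_le_left _ _))))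
  -- the identity
  have hev : ∀ (r : ℕ) (P : ℤ[X]), P.natDegree ≤ r →
      ((hom r P (s * x) z : ℤ) : ℝ) = (z : ℝ) ^ r * rv P (((s * x : ℤ) : ℝ) / ((z : ℤ) : ℝ)) := by
    intro r P hP
    have := hom_eval (F := ℝ) r P hP (s * x) z hzZ.ne'
    rw [this]
    simp only [Int.cast_natCast]
    rfl
  set t : ℝ := ((s * x : ℤ) : ℝ) / ((z : ℤ) : ℝ) with ht'
  have htz : t * z = s * x := by
    rw [ht']
    push_cast
    field_simp
  have hrv : t ^ (r1 + ri + 1) * rv A t + (1 - t) ^ (r0 + ri + 1) * rv D t = rv B t := by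
    rw [← hid, rv_add, rv_mul, rv_mul, rv_pow, rv_pow, rv_X, rv_one_sub]
  have hz1R : (z1 : ℝ) = z - s * x := by exact_mod_cast hz1'
  have hidR : (s * x : ℝ) ^ (r1 + ri + 1) * ((hom r0 A (s * x) z : ℤ) : ℝ) +
      (z1 : ℝ) ^ (r0 + ri + 1) * ((hom r1 D (s * x) z : ℤ) : ℝ) =
      (z : ℝ) ^ (r0 + r1 + 1) * ((hom ri B (s * x) z : ℤ) : ℝ) := by
    rw [hev r0 A hA.le, hev r1 D hD, hev ri B hB.le, ← hrv, ← htz, hz1R, ← htz]
    have e1 : (z : ℝ) - t * z = z * (1 - t) := by ring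
    rw [e1, mul_pow, mul_pow]
    have e2 : (z : ℝ) ^ (r0 + r1 + 1) * (z : ℝ) ^ ri = (z : ℝ) ^ k := by
      rw [← pow_add]; congr 1; omega
    have e3 : (z : ℝ) ^ (r1 + ri + 1) * (z : ℝ) ^ r0 = (z : ℝ) ^ k := by
      rw [← pow_add]; congr 1; omega
    have e4 : (z : ℝ) ^ (r0 + ri + 1) * (z : ℝ) ^ r1 = (z : ℝ) ^ k := by
      rw [← pow_add]; congr 1; omega
    calc t ^ (r1 + ri + 1) * (z : ℝ) ^ (r1 + ri + 1) * ((z : ℝ) ^ r0 * rv A t) +
          (z : ℝ) ^ (r0 + ri + 1) * (1 - t) ^ (r0 + ri + 1) * ((z : ℝ) ^ r1 * rv D t)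
        = ((z : ℝ) ^ (r1 + ri + 1) * (z : ℝ) ^ r0) * (t ^ (r1 + ri + 1) * rv A t) +
          ((z : ℝ) ^ (r0 + ri + 1) * (z : ℝ) ^ r1) * ((1 - t) ^ (r0 + ri + 1) * rv D t) := by ring
      _ = (z : ℝ) ^ k * (t ^ (r1 + ri + 1) * rv A t + (1 - t) ^ (r0 + ri + 1) * rv D t) := by
          rw [e3, e4]; ring
      _ = ((z : ℝ) ^ (r0 + r1 + 1) * (z : ℝ) ^ ri) *
          (t ^ (r1 + ri + 1) * rv A t + (1 - t) ^ (r0 + ri + 1) * rv D t) := by rw [e2]
      _ = _ := by ring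
  have hidZ : (s * x : ℤ) ^ (r1 + ri + 1) * hom r0 A (s * x) z +
      (z1 : ℤ) ^ (r0 + ri + 1) * hom r1 D (s * x) z =
      (z : ℤ) ^ (r0 + r1 + 1) * hom ri B (s * x) z := by
    exact_mod_cast hidR
  have hee : e * e = 1 := by rcases he with rfl | rfl <;> norm_num
  have hff : f * f = 1 := by rcases hf with rfl | rfl <;> norm_num
  have hss : s * s = 1 := by rcases hs with rfl | rfl <;> norm_num
  have hN : x ^ (r1 + ri + 1) * y0 + z1 ^ (r0 + ri + 1) * y1 = z ^ (r0 + r1 + 1) * yi := by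
    have : ((x ^ (r1 + ri + 1) * y0 + z1 ^ (r0 + ri + 1) * y1 : ℕ) : ℤ) =
        ((z ^ (r0 + r1 + 1) * yi : ℕ) : ℤ) := by
      push_cast
      rw [h0, h1, hi]
      rw [mul_pow, hsm] at hidZ
      rw [← hsef]
      linear_combination e * hidZ
    exact_mod_cast this
  obtain ⟨m, a, b, c, hm, ha, hb, hab, habc, eA, eB, eC⟩ := reduce (x ^ (r1 + ri + 1) * y0)
    (z1 ^ (r0 + ri + 1) * y1) (z ^ (r0 + r1 + 1) * yi) (by positivity) (by positivity) hN
  refine ⟨m, y0, y1, yi, a, b, c, ?_, hm, h0p, h1p, hip, ha, hb, hab, habc, eA.symm, eB.symm,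
    eC.symm, h0K, h1K, hiK, hiK'⟩
  -- the divisor
  have hd : (m : ℤ) ∣ Δ := by
    apply hgcd x z hx hz hxz m
    · have e6 : hom k (X ^ (r1 + ri + 1) * A) (s * x) z =
          (s * x : ℤ) ^ (r1 + ri + 1) * hom r0 A (s * x) z := by
        have : ((hom k (X ^ (r1 + ri + 1) * A) (s * x) z : ℤ) : ℝ) =
            (((s * x : ℤ) ^ (r1 + ri + 1) * hom r0 A (s * x) z : ℤ) : ℝ) := by
          rw [hev k _ hFd.le, Int.cast_mul, hev r0 A hA.le, rv_mul, rv_pow, rv_X]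
          push_cast
          rw [← htz, mul_pow]
          have e3 : (z : ℝ) ^ (r1 + ri + 1) * (z : ℝ) ^ r0 = (z : ℝ) ^ k := by
            rw [← pow_add]; congr 1; omega
          rw [← e3]; ring
        exact_mod_cast this
      rw [e6]
      have e7 : (s * x : ℤ) ^ (r1 + ri + 1) * hom r0 A (s * x) z =
          ((x ^ (r1 + ri + 1) * y0 : ℕ) : ℤ) * (s * f) := by
        push_cast
        rw [h0, mul_pow, hsm]
        linear_combination (-(s * (x : ℤ) ^ (r1 + ri + 1) * hom r0 A (s * x) z)) * hff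
      rw [e7, eA]
      push_cast
      exact Dvd.dvd.mul_right (Dvd.intro _ rfl) _
    · have e6 : hom k B (s * x) z = (z : ℤ) ^ (r0 + r1 + 1) * hom ri B (s * x) z := by
        have : ((hom k B (s * x) z : ℤ) : ℝ) =
            (((z : ℤ) ^ (r0 + r1 + 1) * hom ri B (s * x) z : ℤ) : ℝ) := by
          rw [hev k _ (by omega), Int.cast_mul, hev ri B hB.le]
          push_cast
          have e2 : (z : ℝ) ^ (r0 + r1 + 1) * (z : ℝ) ^ ri = (z : ℝ) ^ k := by
            rw [← pow_add]; congr 1; omega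
          rw [← e2]; ring
        exact_mod_cast this
      rw [e6]
      have e7 : (z : ℤ) ^ (r0 + r1 + 1) * hom ri B (s * x) z =
          ((z ^ (r0 + r1 + 1) * yi : ℕ) : ℤ) * e := by
        push_cast
        rw [hi]
        linear_combination (-((z : ℤ) ^ (r0 + r1 + 1) * hom ri B (s * x) z)) * hee
      rw [e7, eC]
      push_cast
      exact Dvd.dvd.mul_right (Dvd.intro _ rfl) _
  exact Int.natCast_dvd.1 hd

end Pool.Agent.H34x.ES
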