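import Mathlib
import Pool.Agent.H34x.ES.Val
import Pool.Agent.N746.Self.Tools

/-!
# Maps of abc triples: powers, the `j`-map
-/

set_option autoImplicit false

namespace Pool.Agent.H34x.ES

open Pool.Agent.N746.Self (R R_pos R_le R_le_of_primes R_mul_le power_map exists_pow_idem dvd_of_idem)

/-- `a'+b'=c'` is the image of `a+b=c` under a map of degree `d` with constant `K` -/
structure Rel (K : ℝ) (d : ℕ) (a b c a' b' c' : ℕ) : Prop where
  a0 : 0 < a'
  b0 : 0 < b'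
  cop : Nat.Coprime a' b'
  sum : a' + b' = c'
  low : (c : ℝ) ^ d ≤ K * c'
  up : (c' : ℝ) ≤ K * (c : ℝ) ^ d
  rad : (R (a' * b' * c') : ℝ) ≤ K * R (a * b * c) * (c : ℝ) ^ (d - 1)

theorem Rel.comp {K₁ K₂ : ℝ} {d₁ d₂ a b c a₁ b₁ c₁ a₂ b₂ c₂ : ℕ} (hK₁ : 1 ≤ K₁) (hK₂ : 1 ≤ K₂)
    (hd₁ : 1 ≤ d₁) (hd₂ : 1 ≤ d₂) (h₁ : Rel K₁ d₁ a b c a₁ b₁ c₁) (h₂ : Rel K₂ d₂ a₁ b₁ c₁ a₂ b₂ c₂) :
    Rel (K₂ * K₁ ^ d₂) (d₁ * d₂) a b c a₂ b₂ c₂ := by
  have hc0 : (0 : ℝ) ≤ c := Nat.cast_nonneg _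
  have hc1 : (0 : ℝ) ≤ c₁ := Nat.cast_nonneg _
  have hc2 : (0 : ℝ) ≤ c₂ := Nat.cast_nonneg _
  have hR : (0 : ℝ) ≤ R (a * b * c) := Nat.cast_nonneg _
  have hK₁' : 0 < K₁ := by linarith
  have hK₂' : 0 < K₂ := by linarith
  refine ⟨h₂.a0, h₂.b0, h₂.cop, h₂.sum, ?_, ?_, ?_⟩
  · calc (c : ℝ) ^ (d₁ * d₂) = ((c : ℝ) ^ d₁) ^ d₂ := by rw [pow_mul]
      _ ≤ (K₁ * c₁) ^ d₂ := pow_le_pow_left₀ (by positivity) h₁.low _
      _ = K₁ ^ d₂ * (c₁ : ℝ) ^ d₂ := by rw [mul_pow]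
      _ ≤ K₁ ^ d₂ * (K₂ * c₂) := mul_le_mul_of_nonneg_left h₂.low (by positivity)
      _ = _ := by ring
  · calc (c₂ : ℝ) ≤ K₂ * (c₁ : ℝ) ^ d₂ := h₂.up
      _ ≤ K₂ * (K₁ * (c : ℝ) ^ d₁) ^ d₂ :=
          mul_le_mul_of_nonneg_left (pow_le_pow_left₀ hc1 h₁.up _) (by linarith)
      _ = _ := by rw [mul_pow, ← pow_mul]; ring
  · have e : d₁ * d₂ - 1 = (d₁ - 1) + d₁ * (d₂ - 1) := by
      obtain ⟨x, rfl⟩ := Nat.exists_eq_add_of_le' hd₁
      obtain ⟨y, rfl⟩ := Nat.exists_eq_add_of_le' hd₂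
      simp only [Nat.add_sub_cancel]
      have : (x + 1) * (y + 1) = (x + (x + 1) * y) + 1 := by ring
      omega
    have e2 : K₁ ^ d₂ = K₁ * K₁ ^ (d₂ - 1) := by
      rw [← pow_succ']; congr 1; omega
    calc (R (a₂ * b₂ * c₂) : ℝ) ≤ K₂ * R (a₁ * b₁ * c₁) * (c₁ : ℝ) ^ (d₂ - 1) := h₂.rad
      _ ≤ K₂ * (K₁ * R (a * b * c) * (c : ℝ) ^ (d₁ - 1)) * (K₁ * (c : ℝ) ^ d₁) ^ (d₂ - 1) := by
          apply mul_le_mul _ (pow_le_pow_left₀ hc1 h₁.up _) (by positivity) (by positivity)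
          exact mul_le_mul_of_nonneg_left h₁.rad (by linarith)
      _ = _ := by rw [e, e2, mul_pow, ← pow_mul, pow_add]; ring

theorem Rel.mono {K K' : ℝ} {d a b c a' b' c' : ℕ} (h : Rel K d a b c a' b' c') (hK : K ≤ K') :
    Rel K' d a b c a' b' c' := by
  refine ⟨h.a0, h.b0, h.cop, h.sum, h.low.trans ?_, h.up.trans ?_, h.rad.trans ?_⟩
  · exact mul_le_mul_of_nonneg_right hK (Nat.cast_nonneg _)
  · exact mul_le_mul_of_nonneg_right hK (by positivity)
  · have h0 : (0 : ℝ) ≤ R (a * b * c) * (c : ℝ) ^ (d - 1) := by positivity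
    have h1 := mul_le_mul_of_nonneg_right hK h0
    linarith

/-- the power map -/
theorem rel_pow (m : ℕ) (hm : 1 ≤ m) (a b c : ℕ) (ha : 0 < a) (hb : 0 < b) (hab : Nat.Coprime a b)
    (habc : a + b = c) : Rel m m a b c (a ^ m) (c ^ m - a ^ m) (c ^ m) := by
  have hlt : a ^ m < c ^ m := Nat.pow_lt_pow_left (by omega) (by omega)
  have hac : Nat.Coprime a c := by
    rw [← habc]; exact (Nat.coprime_self_add_right).2 hab
  have hmR : (1 : ℝ) ≤ m := by exact_mod_cast hm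
  have hc0 : (0 : ℝ) ≤ (c : ℝ) ^ m := by positivity
  refine ⟨by positivity, by omega, ?_, by omega, ?_, ?_, ?_⟩
  · have h1 : Nat.Coprime (a ^ m) (c ^ m) := hac.pow m m
    have h2 : c ^ m = (c ^ m - a ^ m) + a ^ m := by omega
    rw [h2, Nat.coprime_add_self_right] at h1
    exact h1
  · push_cast
    nlinarith
  · push_cast
    nlinarith
  · have h := power_map m hm a b c ha hb habc
    have h' : ((R (a ^ m * (c ^ m - a ^ m) * c ^ m) : ℕ) : ℝ) ≤
        ((R (a * b * c) * (m * c ^ (m - 1)) : ℕ) : ℝ) := by exact_mod_cast h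
    refine h'.trans (le_of_eq ?_)
    push_cast
    ring

/-- the algebraic identity -/
theorem j_id (a b : ℕ) (hab : a ≤ b) : 27 * (a * b * (a + b)) ^ 2 +
    ((b - a) * (2 * a + b) * (a + 2 * b)) ^ 2 = 4 * (a ^ 2 + a * b + b ^ 2) ^ 3 := by
  obtain ⟨d, rfl⟩ := Nat.exists_eq_add_of_le hab
  rw [Nat.add_sub_cancel_left]
  ring

/-- the `j`-map -/
theorem rel_j (a b c : ℕ) (ha : 0 < a) (hb : 0 < b) (hab : Nat.Coprime a b)
    (habc : a + b = c) (h6 : 6 ∣ a * b * c) (hlt : a < b) (N : ℕ) (hN : 2 * N ∣ a * b * c) :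
    ∃ a' b' c' : ℕ, Rel 12 6 a b c a' b' c' ∧ N ∣ a' ∧ (c * c * a' : ℝ) ≤ 16 * (a * a * c' : ℝ) := by
  have hc : 0 < c := by omega
  set S := a ^ 2 + a * b + b ^ 2 with hS
  have hS0 : 0 < S := by positivity
  obtain ⟨P, hP⟩ : ∃ P, a * b * c = 2 * P := (by
    obtain ⟨t, ht⟩ := h6
    exact ⟨3 * t, by rw [ht]; ring⟩)
  obtain ⟨Q, hQ⟩ : ∃ Q, (b - a) * (2 * a + b) * (a + 2 * b) = 2 * Q := by
    have : Even ((b - a) * (2 * a + b) * (a + 2 * b)) := by
      rcases Nat.even_or_odd a with h1 | h1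
      · exact Even.mul_left (h1.add (even_two_mul b)) _
      · rcases Nat.even_or_odd b with h2 | h2
        · exact Even.mul_right (Even.mul_left ((even_two_mul a).add h2) _) _
        · exact Even.mul_right (Even.mul_right (Nat.Odd.sub_odd h2 h1) _) _
    obtain ⟨t, ht⟩ := this
    exact ⟨t, by rw [ht]; ring⟩
  have hid : 27 * P ^ 2 + Q ^ 2 = S ^ 3 := by
    have h := j_id a b hlt.le
    rw [habc, hP, hQ] at h
    have : 4 * (27 * P ^ 2 + Q ^ 2) = 4 * S ^ 3 := by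
      rw [hS, ← h]; ring
    omega
  have hP0 : 0 < P := by
    have : 0 < a * b * c := by positivity
    omega
  have hba : 0 < b - a := by omega
  have hQ0 : 0 < Q := by
    have : 0 < (b - a) * (2 * a + b) * (a + 2 * b) := by positivity
    omega
  -- coprimality
  have hcS : Nat.Coprime (a * b * c) S := by
    have h1 : Nat.Coprime a S := by
      have e : S = b ^ 2 + a * (a + b) := by rw [hS]; ring
      rw [e, Nat.coprime_add_mul_left_right]
      exact hab.pow_right 2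
    have h2 : Nat.Coprime b S := by
      have e : S = a ^ 2 + b * (a + b) := by rw [hS]; ring
      rw [e, Nat.coprime_add_mul_left_right]
      exact hab.symm.pow_right 2
    have h3 : Nat.Coprime c S := by
      have hca : Nat.Coprime c a := by
        rw [← habc, Nat.coprime_self_add_left]; exact hab.symm
      have hcb : Nat.Coprime c b := by
        rw [← habc, Nat.coprime_add_self_left]; exact hab
      have e : S + a * b = c * c := by rw [hS, ← habc]; ring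
      have h4 : Nat.Coprime c (a * b) := hca.mul_right hcb
      rw [Nat.coprime_iff_gcd_eq_one, Nat.eq_one_iff_not_exists_prime_dvd]
      intro p hp hd
      have h5 : p ∣ c := hd.trans (Nat.gcd_dvd_left _ _)
      have h6 : p ∣ S := hd.trans (Nat.gcd_dvd_right _ _)
      have h7 : p ∣ a * b := by
        rw [← Nat.dvd_add_right h6, e]
        exact h5.mul_right _
      exact hp.one_lt.ne' (Nat.dvd_one.1 (by
        have := Nat.dvd_gcd h5 h7
        rwa [h4] at this))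
    exact (h1.mul_left h2).mul_left h3
  have h3d : 3 ∣ a * b * c := (by norm_num : 3 ∣ 6).trans h6
  have hPS : Nat.Coprime P S := by
    have : P ∣ a * b * c := by rw [hP]; exact dvd_mul_left _ _
    exact Nat.Coprime.coprime_dvd_left this hcS
  have h3S : Nat.Coprime 3 S := Nat.Coprime.coprime_dvd_left h3d hcS
  have hcop : Nat.Coprime (27 * P ^ 2) (Q ^ 2) := by
    have h1 : Nat.Coprime (27 * P ^ 2) (S ^ 3) := by
      apply Nat.Coprime.pow_right
      apply Nat.Coprime.mul_left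
      · have : (27 : ℕ) = 3 ^ 3 := by norm_num
        rw [this]
        exact h3S.pow_left 3
      · exact hPS.pow_left 2
    rw [← hid, Nat.coprime_self_add_right] at h1
    exact h1
  -- sizes
  have hS1 : S ≤ c ^ 2 := by rw [hS, ← habc]; nlinarith
  have hS2 : 3 * c ^ 2 ≤ 4 * S := by
    rw [hS, ← habc]
    have : (a : ℤ) ^ 2 + b ^ 2 - 2 * a * b = (a - b) ^ 2 := by ring
    have h2 : 2 * a * b ≤ a ^ 2 + b ^ 2 := by
      have := sq_nonneg ((a : ℤ) - b)
      zify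
      linarith
    nlinarith
  have hQc : Q ≤ 2 * c ^ 3 := by
    have h1 : (b - a) * (2 * a + b) * (a + 2 * b) ≤ c * (2 * c) * (2 * c) :=
      Nat.mul_le_mul (Nat.mul_le_mul (by omega) (by omega)) (by omega)
    have h2 : c * (2 * c) * (2 * c) = 2 * (2 * c ^ 3) := by ring
    omega
  have hSc : S ^ 3 ≤ c ^ 6 := by
    calc S ^ 3 ≤ (c ^ 2) ^ 3 := Nat.pow_le_pow_left hS1 3
      _ = c ^ 6 := by ring
  have hcS3 : 27 * c ^ 6 ≤ 64 * S ^ 3 := by
    calc 27 * c ^ 6 = (3 * c ^ 2) ^ 3 := by ring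
      _ ≤ (4 * S) ^ 3 := Nat.pow_le_pow_left hS2 3
      _ = 64 * S ^ 3 := by ring
  refine ⟨27 * P ^ 2, Q ^ 2, S ^ 3, ⟨by positivity, by positivity, hcop, hid, ?_, ?_, ?_⟩, ?_, ?_⟩
  · have h1 : (27 : ℝ) * (c : ℝ) ^ 6 ≤ 64 * ((S ^ 3 : ℕ) : ℝ) := by exact_mod_cast hcS3
    have h2 : (0 : ℝ) ≤ ((S ^ 3 : ℕ) : ℝ) := Nat.cast_nonneg _
    linarith
  · have h1 : ((S ^ 3 : ℕ) : ℝ) ≤ (c : ℝ) ^ 6 := by exact_mod_cast hSc
    have h2 : (0 : ℝ) ≤ (c : ℝ) ^ 6 := by positivity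
    linarith
  · have hprime : ∀ p : ℕ, p.Prime → p ∣ 27 * P ^ 2 * Q ^ 2 * S ^ 3 → p ∣ a * b * c * (Q * S) := by
      intro p hp hd
      rcases (hp.dvd_mul).1 hd with h | h
      · rcases (hp.dvd_mul).1 h with h | h
        · rcases (hp.dvd_mul).1 h with h | h
          · have h27 : p ∣ 3 := by
              have : (27 : ℕ) = 3 ^ 3 := by norm_num
              rw [this] at h
              exact hp.dvd_of_dvd_pow h
            exact (h27.trans h3d).mul_right _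
          · have := hp.dvd_of_dvd_pow h
            exact (this.trans (by rw [hP]; exact dvd_mul_left _ _)).mul_right _
        · have := hp.dvd_of_dvd_pow h
          exact (this.mul_right S).mul_left _
      · have := hp.dvd_of_dvd_pow h
        exact (this.mul_left Q).mul_left _
    have h0 : a * b * c ≠ 0 := by positivity
    have h1 : R (27 * P ^ 2 * Q ^ 2 * S ^ 3) ≤ R (a * b * c) * (2 * c ^ 3 * c ^ 2) :=
      calc R (27 * P ^ 2 * Q ^ 2 * S ^ 3) ≤ R (a * b * c * (Q * S)) :=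
            R_le_of_primes (by positivity) hprime
        _ ≤ R (a * b * c) * R (Q * S) := R_mul_le _ _ h0 (by positivity)
        _ ≤ R (a * b * c) * (Q * S) := Nat.mul_le_mul_left _ (R_le (by positivity))
        _ ≤ _ := Nat.mul_le_mul_left _ (Nat.mul_le_mul hQc hS1)
    have h2 : (R (27 * P ^ 2 * Q ^ 2 * S ^ 3) : ℝ) ≤ R (a * b * c) * (2 * (c : ℝ) ^ 3 * (c : ℝ) ^ 2) := by
      exact_mod_cast h1
    have h3 : (0 : ℝ) ≤ R (a * b * c) * (c : ℝ) ^ 5 := by positivity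
    have h4 : R (a * b * c) * (2 * (c : ℝ) ^ 3 * (c : ℝ) ^ 2) = 2 * (R (a * b * c) * (c : ℝ) ^ 5) := by
      ring
    have h5 : (12 : ℝ) * R (a * b * c) * (c : ℝ) ^ (6 - 1) = 12 * (R (a * b * c) * (c : ℝ) ^ 5) := by
      norm_num
      ring
    rw [h5]
    linarith
  · have h1 : 2 * N ∣ 2 * P := by rw [← hP]; exact hN
    have h2 : N ∣ P := Nat.dvd_of_mul_dvd_mul_left (by norm_num) h1
    exact (h2.trans (dvd_pow_self P (by norm_num))).mul_left 27
  · -- `c ^ 2 a' ≤ 16 a ^ 2 c'`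
    have h1 : 4 * (27 * P ^ 2) = 27 * (a * b * c) ^ 2 := by rw [hP]; ring
    have h2 : c * c * (4 * (27 * P ^ 2)) ≤ 4 * (16 * (a * a * S ^ 3)) := by
      rw [h1]
      calc c * c * (27 * (a * b * c) ^ 2) ≤ c * c * (27 * (a * c * c) ^ 2) := by
            apply Nat.mul_le_mul_left
            apply Nat.mul_le_mul_left
            apply Nat.pow_le_pow_left
            exact Nat.mul_le_mul_right _ (Nat.mul_le_mul_left _ (by omega))
        _ = a * a * (27 * c ^ 6) := by ring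
        _ ≤ a * a * (64 * S ^ 3) := Nat.mul_le_mul_left _ hcS3
        _ = _ := by ring
    have h3 : c * c * (27 * P ^ 2) ≤ 16 * (a * a * S ^ 3) := by
      have e : c * c * (4 * (27 * P ^ 2)) = 4 * (c * c * (27 * P ^ 2)) := by ring
      omega
    exact_mod_cast h3

end Pool.Agent.H34x.ES
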