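import Mathlib
import Pool.Agent.H34x.ES.Step

/-!
# Moving a triple to the cusp, and giving it a shape
-/

set_option autoImplicit false

namespace Pool.Agent.H34x.ES

open Pool.Agent.N746.Self (R R_pos R_le R_le_of_primes R_mul_le power_map exists_pow_idem dvd_of_idem)

theorem Rel.symm {K : ℝ} {d a b c a' b' c' : ℕ} (h : Rel K d b a c a' b' c') :
    Rel K d a b c a' b' c' := by
  refine ⟨h.a0, h.b0, h.cop, h.sum, h.low, h.up, ?_⟩
  have := h.rad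
  rwa [mul_comm b a] at this

/-- **every triple can be moved to the cusp `a = 0`, at infinity and at the primes dividing `N`** -/
theorem stage12 (N : ℕ) (hN : 0 < N) (δ : ℝ) (hδ : 0 < δ) :
    ∃ (e : ℕ) (K : ℝ), 1 ≤ e ∧ 1 ≤ K ∧ ∀ a b c : ℕ, 0 < a → 0 < b → Nat.Coprime a b → a + b = c →
      ∃ a' b' c' : ℕ, Rel K e a b c a' b' c' ∧ N ∣ a' ∧ (a' : ℝ) ≤ δ * c' := by
  haveI : NeZero (12 * N) := ⟨by positivity⟩
  obtain ⟨k, hk0, hk⟩ := exists_pow_idem (12 * N)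
  set δ₀ : ℝ := min (1 / 4) (δ / 4) with hδ₀
  have hδ₀0 : 0 < δ₀ := lt_min (by norm_num) (by linarith)
  obtain ⟨j, hj⟩ := exists_pow_lt_of_lt_one hδ₀0 (show (1 / 2 : ℝ) < 1 by norm_num)
  set m := k * (j + 1) with hm
  have hm1 : 1 ≤ m := Nat.one_le_iff_ne_zero.2 (by positivity)
  have hjm : j ≤ m := by
    have : j + 1 ≤ k * (j + 1) := Nat.le_mul_of_pos_left _ (Nat.pos_of_ne_zero hk0)
    omega
  have hmR : (1 : ℝ) ≤ m := by exact_mod_cast hm1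
  refine ⟨m * 6, 12 * (m : ℝ) ^ 6, by omega, ?_, ?_⟩
  · have : (1 : ℝ) ≤ (m : ℝ) ^ 6 := one_le_pow₀ hmR
    linarith
  have main : ∀ a b c : ℕ, 0 < a → 0 < b → Nat.Coprime a b → a + b = c → a ≤ b →
      ∃ a' b' c' : ℕ, Rel (12 * (m : ℝ) ^ 6) (m * 6) a b c a' b' c' ∧ N ∣ a' ∧
        (a' : ℝ) ≤ δ * c' := by
    intro a b c ha hb hab habc hle
    have hc : 0 < c := by omega
    have h1 := rel_pow m hm1 a b c ha hb hab habc
    have hdvd : 12 * N ∣ a ^ m * (c ^ m - a ^ m) * c ^ m :=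
      dvd_of_idem (12 * N) k hk (j + 1) a c (by omega)
    have hcm : (0 : ℝ) < ((c ^ m : ℕ) : ℝ) := by positivity
    have hsmall : ((a ^ m : ℕ) : ℝ) ≤ δ₀ * ((c ^ m : ℕ) : ℝ) := by
      have h2 : (a : ℝ) ≤ 1 / 2 * c := by
        have : (2 * a : ℝ) ≤ c := by exact_mod_cast (by omega : 2 * a ≤ c)
        linarith
      have h3 : ((1 : ℝ) / 2) ^ m ≤ (1 / 2) ^ j :=
        pow_le_pow_of_le_one (by norm_num) (by norm_num) hjm
      push_cast
      calc (a : ℝ) ^ m ≤ (1 / 2 * c) ^ m := pow_le_pow_left₀ (Nat.cast_nonneg _) h2 _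
        _ = (1 / 2) ^ m * (c : ℝ) ^ m := by rw [mul_pow]
        _ ≤ δ₀ * (c : ℝ) ^ m := by
            apply mul_le_mul_of_nonneg_right _ (by positivity)
            linarith
    have hlt : a ^ m < c ^ m - a ^ m := by
      have h4 : δ₀ ≤ 1 / 4 := min_le_left _ _
      have h5 : ((a ^ m : ℕ) : ℝ) ≤ 1 / 4 * ((c ^ m : ℕ) : ℝ) :=
        hsmall.trans (mul_le_mul_of_nonneg_right h4 hcm.le)
      have h6 : 4 * a ^ m ≤ c ^ m := by
        have : ((4 * a ^ m : ℕ) : ℝ) ≤ ((c ^ m : ℕ) : ℝ) := by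
          push_cast at h5 ⊢
          linarith
        exact_mod_cast this
      have h7 : 0 < a ^ m := by positivity
      omega
    obtain ⟨a', b', c', h2, hNa, hpos⟩ := rel_j (a ^ m) (c ^ m - a ^ m) (c ^ m) h1.a0 h1.b0 h1.cop
      h1.sum ((Dvd.intro (2 * N) (by ring)).trans hdvd) hlt N
      ((Dvd.intro 6 (by ring)).trans hdvd)
    refine ⟨a', b', c', ?_, hNa, ?_⟩
    · exact h1.comp hmR (by norm_num) hm1 (by norm_num) h2
    · have hc'0 : (0 : ℝ) ≤ c' := Nat.cast_nonneg _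
      have h4 : δ₀ ≤ 1 / 4 := min_le_left _ _
      have h5 : δ₀ ≤ δ / 4 := min_le_right _ _
      have h6 : 16 * (δ₀ * δ₀) ≤ δ := by nlinarith
      have ha0 : (0 : ℝ) ≤ ((a ^ m : ℕ) : ℝ) := Nat.cast_nonneg _
      have h7 : ((a ^ m : ℕ) : ℝ) * ((a ^ m : ℕ) : ℝ) ≤
          (δ₀ * ((c ^ m : ℕ) : ℝ)) * (δ₀ * ((c ^ m : ℕ) : ℝ)) :=
        mul_le_mul hsmall hsmall ha0 (by positivity)
      have h8 : ((c ^ m : ℕ) : ℝ) * ((c ^ m : ℕ) : ℝ) * a' ≤
          ((c ^ m : ℕ) : ℝ) * ((c ^ m : ℕ) : ℝ) * (δ * c') := by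
        calc ((c ^ m : ℕ) : ℝ) * ((c ^ m : ℕ) : ℝ) * a'
            ≤ 16 * (((a ^ m : ℕ) : ℝ) * ((a ^ m : ℕ) : ℝ) * c') := hpos
          _ ≤ 16 * ((δ₀ * ((c ^ m : ℕ) : ℝ)) * (δ₀ * ((c ^ m : ℕ) : ℝ)) * c') := by
              have := mul_le_mul_of_nonneg_right h7 hc'0
              linarith
          _ = (16 * (δ₀ * δ₀)) * (((c ^ m : ℕ) : ℝ) * ((c ^ m : ℕ) : ℝ) * c') := by ring
          _ ≤ δ * (((c ^ m : ℕ) : ℝ) * ((c ^ m : ℕ) : ℝ) * c') :=
              mul_le_mul_of_nonneg_right h6 (by positivity)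
          _ = _ := by ring
      exact le_of_mul_le_mul_left h8 (by positivity)
  intro a b c ha hb hab habc
  rcases le_total a b with hle | hle
  · exact main a b c ha hb hab habc hle
  · obtain ⟨a', b', c', h, h1, h2⟩ := main b a c hb ha hab.symm (by omega) hle
    exact ⟨a', b', c', h.symm, h1, h2⟩

/-- a factor of an almost power -/
theorem almost (p m a w y : ℕ) (hm : 0 < m) (hp : 1 ≤ p) (h : m * a = w ^ p * y) :
    ∃ A x : ℕ, a = A * x ^ p ∧ A ≤ m ^ p * y := by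
  set g := Nat.gcd w m with hg
  have hg0 : 0 < g := Nat.gcd_pos_of_pos_right _ hm
  obtain ⟨w₁, hw₁⟩ := Nat.gcd_dvd_left w m
  obtain ⟨m₁, hm₁⟩ := Nat.gcd_dvd_right w m
  rw [← hg] at hw₁ hm₁
  have hcop : Nat.Coprime w₁ m₁ := by
    have := Nat.coprime_div_gcd_div_gcd (m := w) (n := m) hg0
    rw [← hg] at this
    rwa [Nat.div_eq_of_eq_mul_right hg0 hw₁, Nat.div_eq_of_eq_mul_right hg0 hm₁] at this
  have hm₁0 : 0 < m₁ := by
    rcases Nat.eq_zero_or_pos m₁ with h0 | h0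
    · rw [h0, mul_zero] at hm₁; omega
    · exact h0
  have e1 : m₁ * a = w₁ ^ p * (g ^ (p - 1) * y) := by
    have e2 : g * (m₁ * a) = g * (w₁ ^ p * (g ^ (p - 1) * y)) := by
      calc g * (m₁ * a) = m * a := by rw [hm₁]; ring
        _ = w ^ p * y := h
        _ = (g * w₁) ^ p * y := by rw [← hw₁]
        _ = g ^ p * (w₁ ^ p * y) := by rw [mul_pow]; ring
        _ = (g * g ^ (p - 1)) * (w₁ ^ p * y) := by
            rw [← pow_succ']
            congr 2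
            omega
        _ = _ := by ring
    exact Nat.eq_of_mul_eq_mul_left hg0 e2
  have h1 : m₁ ∣ w₁ ^ p * (g ^ (p - 1) * y) := by rw [← e1]; exact Nat.dvd_mul_right _ _
  obtain ⟨A, hA⟩ := (hcop.symm.pow_right p).dvd_of_dvd_mul_left h1
  refine ⟨A, w₁, ?_, ?_⟩
  · rw [hA] at e1
    have : m₁ * a = m₁ * (A * w₁ ^ p) := by rw [e1]; ring
    exact Nat.eq_of_mul_eq_mul_left hm₁0 this
  · calc A ≤ m₁ * A := Nat.le_mul_of_pos_left _ hm₁0
      _ = g ^ (p - 1) * y := hA.symm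
      _ ≤ m ^ p * y := by
          apply Nat.mul_le_mul_right
          calc g ^ (p - 1) ≤ m ^ (p - 1) := Nat.pow_le_pow_left (Nat.gcd_le_right _ hm) _
            _ ≤ m ^ p := Nat.pow_le_pow_right hm (by omega)

/-- **the shape of a triple near the cusp** -/
theorem stage4 (p q r r0 r1 ri : ℕ) (hp : 1 ≤ p) (hq : 1 ≤ q) (hr : 1 ≤ r)
    (hqd : q ∣ r0 + ri + 1) (hrd : r ∣ r0 + r1 + 1) (hodd : Odd (r1 + ri + 1)) :
    ∃ (Δ : ℕ) (K δ : ℝ), 0 < Δ ∧ 1 ≤ K ∧ 0 < δ ∧ ∀ a b c u : ℕ, 0 < a → 0 < b →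
      Nat.Coprime a b → a + b = c → a = u ^ p → (a : ℝ) ≤ δ * c →
      ∃ a' b' c' : ℕ, Rel K (r0 + r1 + ri + 1) a b c a' b' c' ∧
        (∀ N, N * Δ ∣ a → N ∣ a') ∧ (a' * c : ℝ) ≤ K * (a * c') ∧
        (∃ A x : ℕ, a' = A * x ^ p ∧ (A : ℝ) ≤ K * (c : ℝ) ^ r0) ∧
        (∃ B y : ℕ, b' = B * y ^ q ∧ (B : ℝ) ≤ K * (c : ℝ) ^ r1) ∧
        (∃ C z : ℕ, c' = C * z ^ r ∧ (C : ℝ) ≤ K * (c : ℝ) ^ ri) := by
  obtain ⟨s, Δ, K₀, δ₀, hs, hΔ, hK₀, hδ₀, hval⟩ := pade_val r0 r1 ri hodd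
  set k := r0 + r1 + ri + 1 with hk
  have hΔR : (1 : ℝ) ≤ Δ := by exact_mod_cast hΔ
  set K : ℝ := 2 ^ k * K₀ * Δ + K₀ + K₀ ^ 3 + 2 * K₀ ^ 2 + (Δ : ℝ) ^ p * K₀ + (Δ : ℝ) ^ q * K₀ +
    (Δ : ℝ) ^ r * K₀ with hKdef
  have hK₀' : 0 < K₀ := by linarith
  have p1 : 0 ≤ 2 ^ k * K₀ * Δ := by positivity
  have p2 : 0 ≤ K₀ ^ 3 := by positivity
  have p3 : 0 ≤ 2 * K₀ ^ 2 := by positivity
  have p4 : 0 ≤ (Δ : ℝ) ^ p * K₀ := by positivity
  have p5 : 0 ≤ (Δ : ℝ) ^ q * K₀ := by positivity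
  have p6 : 0 ≤ (Δ : ℝ) ^ r * K₀ := by positivity
  refine ⟨Δ, K, min (1 / 2) (δ₀ / 2), hΔ, by linarith, lt_min (by norm_num) (by linarith), ?_⟩
  intro a b c u ha hb hab habc hau hsm
  have hcR : (0 : ℝ) < c := by exact_mod_cast (by omega : 0 < c)
  have haR : (0 : ℝ) < a := by exact_mod_cast ha
  have habR : (a : ℝ) + b = c := by exact_mod_cast habc
  have hsm1 : (a : ℝ) ≤ 1 / 2 * c := hsm.trans (mul_le_mul_of_nonneg_right (min_le_left _ _) hcR.le)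
  have hsm2 : (a : ℝ) ≤ δ₀ / 2 * c := hsm.trans (mul_le_mul_of_nonneg_right (min_le_right _ _) hcR.le)
  -- the coordinates
  obtain ⟨z, z1, hz0, hz10, hxz, hz1, hzc, hcz, hprod, hz1c⟩ : ∃ z z1 : ℕ, 0 < z ∧ 0 < z1 ∧
      Nat.Coprime a z ∧
      (z1 : ℤ) = z - s * a ∧ z ≤ c ∧ (c : ℝ) ≤ 2 * z ∧ a * z1 * z = a * b * c ∧ z1 ≤ c := by
    rcases hs with rfl | rfl
    · refine ⟨c, b, by omega, hb, ?_, ?_, le_rfl, by linarith, by ring, by omega⟩
      · rw [← habc]; exact Nat.coprime_self_add_right.2 hab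
      · rw [← habc]; push_cast; ring
    · refine ⟨b, c, hb, by omega, hab, ?_, by omega, by linarith, by ring, le_rfl⟩
      rw [← habc]; push_cast; ring
  have hzR : (0 : ℝ) < z := by exact_mod_cast hz0
  have hzcR : (z : ℝ) ≤ c := by exact_mod_cast hzc
  have haz : (a : ℝ) ≤ δ₀ * z := by nlinarith
  have haz' : (a : ℝ) ≤ z := by linarith
  obtain ⟨m, y0, y1, yi, a', b', c', hmΔ, hm, hy0, hy1, hyi, ha', hb', hab', habc', e0, e1, ei,
    k0, k1, ki, ki'⟩ := hval a z z1 ha hz0 hz10 hxz hz1 haz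
  have hmle : m ≤ Δ := Nat.le_of_dvd hΔ hmΔ
  have hmR : (m : ℝ) ≤ Δ := by exact_mod_cast hmle
  have hmR1 : (1 : ℝ) ≤ m := by exact_mod_cast hm
  have hc'R : (0 : ℝ) ≤ c' := Nat.cast_nonneg _
  have eiR : (m : ℝ) * c' = (z : ℝ) ^ (r0 + r1 + 1) * yi := by exact_mod_cast ei
  have e0R : (m : ℝ) * a' = (a : ℝ) ^ (r1 + ri + 1) * y0 := by exact_mod_cast e0
  have hzk : (z : ℝ) ^ k = (z : ℝ) ^ (r0 + r1 + 1) * (z : ℝ) ^ ri := by
    rw [← pow_add]; congr 1; omega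
  refine ⟨a', b', c', ⟨ha', hb', hab', habc', ?_, ?_, ?_⟩, ?_, ?_, ?_, ?_, ?_⟩
  · -- low
    calc (c : ℝ) ^ k ≤ (2 * z) ^ k := pow_le_pow_left₀ hcR.le hcz _
      _ = 2 ^ k * ((z : ℝ) ^ (r0 + r1 + 1) * (z : ℝ) ^ ri) := by rw [mul_pow, hzk]
      _ ≤ 2 ^ k * ((z : ℝ) ^ (r0 + r1 + 1) * (K₀ * yi)) := by
          apply mul_le_mul_of_nonneg_left _ (by positivity)
          exact mul_le_mul_of_nonneg_left ki' (by positivity)
      _ = 2 ^ k * K₀ * (m * c') := by rw [eiR]; ring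
      _ ≤ 2 ^ k * K₀ * (Δ * c') := by
          apply mul_le_mul_of_nonneg_left _ (by positivity)
          exact mul_le_mul_of_nonneg_right hmR hc'R
      _ = (2 ^ k * K₀ * Δ) * c' := by ring
      _ ≤ K * c' := mul_le_mul_of_nonneg_right (by linarith) hc'R
  · -- up
    calc (c' : ℝ) ≤ m * c' := by nlinarith
      _ = (z : ℝ) ^ (r0 + r1 + 1) * yi := eiR
      _ ≤ (z : ℝ) ^ (r0 + r1 + 1) * (K₀ * (z : ℝ) ^ ri) := mul_le_mul_of_nonneg_left ki (by positivity)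
      _ = K₀ * (z : ℝ) ^ k := by rw [hzk]; ring
      _ ≤ K₀ * (c : ℝ) ^ k := mul_le_mul_of_nonneg_left (pow_le_pow_left₀ hzR.le hzcR _) hK₀'.le
      _ ≤ _ := mul_le_mul_of_nonneg_right (by linarith) (by positivity)
  · -- the radical
    have hprime : ∀ l : ℕ, l.Prime → l ∣ a' * b' * c' → l ∣ a * b * c * (y0 * y1 * yi) := by
      intro l hl hd
      rw [← hprod]
      rcases (hl.dvd_mul).1 hd with h | h
      · rcases (hl.dvd_mul).1 h with h | h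
        · have h1 : l ∣ a ^ (r1 + ri + 1) * y0 := by rw [← e0]; exact h.mul_left _
          rcases (hl.dvd_mul).1 h1 with h2 | h2
          · have := hl.dvd_of_dvd_pow h2
            exact ((this.mul_right z1).mul_right z).mul_right _
          · exact ((h2.mul_right y1).mul_right yi).mul_left _
        · have h1 : l ∣ z1 ^ (r0 + ri + 1) * y1 := by rw [← e1]; exact h.mul_left _
          rcases (hl.dvd_mul).1 h1 with h2 | h2
          · have := hl.dvd_of_dvd_pow h2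
            exact ((this.mul_left a).mul_right z).mul_right _
          · exact ((h2.mul_left y0).mul_right yi).mul_left _
      · have h1 : l ∣ z ^ (r0 + r1 + 1) * yi := by rw [← ei]; exact h.mul_left _
        rcases (hl.dvd_mul).1 h1 with h2 | h2
        · have := hl.dvd_of_dvd_pow h2
          exact (this.mul_left (a * z1)).mul_right _
        · exact (h2.mul_left (y0 * y1)).mul_left _
    have hc0 : 0 < c := by omega
    have h0 : a * b * c ≠ 0 := by positivity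
    have h1 : R (a' * b' * c') ≤ R (a * b * c) * (y0 * y1 * yi) :=
      calc R (a' * b' * c') ≤ R (a * b * c * (y0 * y1 * yi)) :=
            R_le_of_primes (by positivity) hprime
        _ ≤ R (a * b * c) * R (y0 * y1 * yi) := R_mul_le _ _ h0 (by positivity)
        _ ≤ _ := Nat.mul_le_mul_left _ (R_le (by positivity))
    have h2 : (R (a' * b' * c') : ℝ) ≤ R (a * b * c) * (y0 * y1 * yi) := by exact_mod_cast h1
    have h3 : (y0 * y1 * yi : ℝ) ≤ K₀ ^ 3 * (c : ℝ) ^ (k - 1) := by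
      calc (y0 * y1 * yi : ℝ) ≤ (K₀ * (z : ℝ) ^ r0) * (K₀ * (z : ℝ) ^ r1) * (K₀ * (z : ℝ) ^ ri) := by
            apply mul_le_mul _ ki (Nat.cast_nonneg _) (by positivity)
            exact mul_le_mul k0 k1 (Nat.cast_nonneg _) (by positivity)
        _ = K₀ ^ 3 * (z : ℝ) ^ (k - 1) := by
            have : k - 1 = r0 + r1 + ri := by omega
            rw [this, pow_add, pow_add]; ring
        _ ≤ _ := mul_le_mul_of_nonneg_left (pow_le_pow_left₀ hzR.le hzcR _) (by positivity)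
    have hRn : (0 : ℝ) ≤ R (a * b * c) := Nat.cast_nonneg _
    calc (R (a' * b' * c') : ℝ) ≤ R (a * b * c) * (y0 * y1 * yi) := h2
      _ ≤ R (a * b * c) * (K₀ ^ 3 * (c : ℝ) ^ (k - 1)) := mul_le_mul_of_nonneg_left h3 hRn
      _ = K₀ ^ 3 * (R (a * b * c) * (c : ℝ) ^ (k - 1)) := by ring
      _ ≤ K * (R (a * b * c) * (c : ℝ) ^ (k - 1)) :=
          mul_le_mul_of_nonneg_right (by linarith) (by positivity)
      _ = _ := by ring
  · -- divisibility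
    intro N hN
    have h1 : m * N ∣ m * a' := by
      rw [e0]
      have h2 : m * N ∣ a := (by rw [mul_comm m N]; exact Nat.mul_dvd_mul_left _ hmΔ : m * N ∣ N * Δ).trans hN
      exact (h2.trans (dvd_pow_self a (by omega))).mul_right _
    exact Nat.dvd_of_mul_dvd_mul_left hm h1
  · -- position
    have h1 : (m : ℝ) * a' * z ≤ K₀ ^ 2 * (a * (m * c')) := by
      have ha1 : (a : ℝ) ^ (r1 + ri + 1) ≤ a * (z : ℝ) ^ (r1 + ri) := by
        rw [pow_succ']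
        exact mul_le_mul_of_nonneg_left (pow_le_pow_left₀ haR.le haz' _) haR.le
      calc (m : ℝ) * a' * z = (a : ℝ) ^ (r1 + ri + 1) * y0 * z := by rw [e0R]
        _ ≤ (a * (z : ℝ) ^ (r1 + ri)) * (K₀ * (z : ℝ) ^ r0) * z := by
            apply mul_le_mul_of_nonneg_right _ hzR.le
            exact mul_le_mul ha1 k0 (Nat.cast_nonneg _) (by positivity)
        _ = K₀ * a * (z : ℝ) ^ k := by
            have : (z : ℝ) ^ k = (z : ℝ) ^ (r1 + ri) * (z : ℝ) ^ r0 * z := by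
              rw [← pow_add, ← pow_succ]; congr 1; omega
            rw [this]; ring
        _ = K₀ * a * ((z : ℝ) ^ (r0 + r1 + 1) * (z : ℝ) ^ ri) := by rw [hzk]
        _ ≤ K₀ * a * ((z : ℝ) ^ (r0 + r1 + 1) * (K₀ * yi)) := by
            apply mul_le_mul_of_nonneg_left _ (by positivity)
            exact mul_le_mul_of_nonneg_left ki' (by positivity)
        _ = _ := by rw [eiR]; ring
    have h2 : (a' : ℝ) * z ≤ K₀ ^ 2 * (a * c') := by
      have h3 : (m : ℝ) * (a' * z) ≤ m * (K₀ ^ 2 * (a * c')) := by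
        calc (m : ℝ) * (a' * z) = (m : ℝ) * a' * z := by ring
          _ ≤ K₀ ^ 2 * (a * (m * c')) := h1
          _ = _ := by ring
      exact le_of_mul_le_mul_left h3 (by linarith)
    have ha'R : (0 : ℝ) ≤ a' := Nat.cast_nonneg _
    calc (a' * c : ℝ) ≤ a' * (2 * z) := mul_le_mul_of_nonneg_left hcz ha'R
      _ = 2 * (a' * z) := by ring
      _ ≤ 2 * (K₀ ^ 2 * (a * c')) := by linarith
      _ = (2 * K₀ ^ 2) * (a * c') := by ring
      _ ≤ _ := mul_le_mul_of_nonneg_right (by linarith) (by positivity)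
  · obtain ⟨A, x, hA, hAle⟩ := almost p m a' (u ^ (r1 + ri + 1)) y0 hm hp (by
      rw [e0, hau, ← pow_mul, ← pow_mul, mul_comm p])
    refine ⟨A, x, hA, ?_⟩
    have h1 : (A : ℝ) ≤ (m : ℝ) ^ p * y0 := by exact_mod_cast hAle
    calc (A : ℝ) ≤ (m : ℝ) ^ p * y0 := h1
      _ ≤ (Δ : ℝ) ^ p * (K₀ * (z : ℝ) ^ r0) :=
          mul_le_mul (pow_le_pow_left₀ (by linarith) hmR _) k0 (Nat.cast_nonneg _) (by positivity)
      _ = ((Δ : ℝ) ^ p * K₀) * (z : ℝ) ^ r0 := by ring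
      _ ≤ K * (c : ℝ) ^ r0 := mul_le_mul (by linarith) (pow_le_pow_left₀ hzR.le hzcR _)
          (by positivity) (by linarith)
  · obtain ⟨t, ht⟩ := hqd
    obtain ⟨A, x, hA, hAle⟩ := almost q m b' (z1 ^ t) y1 hm hq (by
      rw [e1, ht, ← pow_mul, mul_comm q])
    refine ⟨A, x, hA, ?_⟩
    have h1 : (A : ℝ) ≤ (m : ℝ) ^ q * y1 := by exact_mod_cast hAle
    calc (A : ℝ) ≤ (m : ℝ) ^ q * y1 := h1
      _ ≤ (Δ : ℝ) ^ q * (K₀ * (z : ℝ) ^ r1) :=
          mul_le_mul (pow_le_pow_left₀ (by linarith) hmR _) k1 (Nat.cast_nonneg _) (by positivity)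
      _ = ((Δ : ℝ) ^ q * K₀) * (z : ℝ) ^ r1 := by ring
      _ ≤ K * (c : ℝ) ^ r1 := mul_le_mul (by linarith) (pow_le_pow_left₀ hzR.le hzcR _)
          (by positivity) (by linarith)
  · obtain ⟨t, ht⟩ := hrd
    obtain ⟨A, x, hA, hAle⟩ := almost r m c' (z ^ t) yi hm hr (by
      rw [ei, ht, ← pow_mul, mul_comm r])
    refine ⟨A, x, hA, ?_⟩
    have h1 : (A : ℝ) ≤ (m : ℝ) ^ r * yi := by exact_mod_cast hAle
    calc (A : ℝ) ≤ (m : ℝ) ^ r * yi := h1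
      _ ≤ (Δ : ℝ) ^ r * (K₀ * (z : ℝ) ^ ri) :=
          mul_le_mul (pow_le_pow_left₀ (by linarith) hmR _) ki (Nat.cast_nonneg _) (by positivity)
      _ = ((Δ : ℝ) ^ r * K₀) * (z : ℝ) ^ ri := by ring
      _ ≤ K * (c : ℝ) ^ ri := mul_le_mul (by linarith) (pow_le_pow_left₀ hzR.le hzcR _)
          (by positivity) (by linarith)

end Pool.Agent.H34x.ES
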