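import Mathlib
import Pool.Agent.H34x.ES.Chain

/-!
# Giving a shape to every triple
-/

set_option autoImplicit false

namespace Pool.Agent.H34x.ES

open Filter
open Pool.Agent.N746.Self (R R_pos R_le R_le_of_primes R_mul_le window)

/-- `n = A x ^ p` with `A R(x) ≤ B` -/
def AP (p : ℕ) (B : ℝ) (n : ℕ) : Prop := ∃ A x : ℕ, n = A * x ^ p ∧ (A * R x : ℝ) ≤ B

theorem choose3 (α β γ : ℝ) (hα : 0 < α) (hβ : 0 < β) (hγ : 0 < γ) (h : 1 < α + β + γ) :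
    ∃ u v w : ℕ, 1 ≤ u ∧ (u : ℝ) < α * (u + v + w : ℕ) ∧ (v : ℝ) < β * (u + v + w : ℕ) ∧
      (w : ℝ) < γ * (u + v + w : ℕ) := by
  obtain ⟨n, hn⟩ := exists_nat_gt (max (1 / α) (3 / (α + β + γ - 1)))
  have h1 : 1 / α < n := lt_of_le_of_lt (le_max_left _ _) hn
  have h2 : 3 / (α + β + γ - 1) < n := lt_of_le_of_lt (le_max_right _ _) hn
  rw [div_lt_iff₀ hα] at h1
  rw [div_lt_iff₀ (by linarith)] at h2
  have hn0 : (0 : ℝ) ≤ n := Nat.cast_nonneg _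
  have f1 := Nat.lt_floor_add_one (α * n)
  have f2 := Nat.lt_floor_add_one (β * n)
  have f3 := Nat.lt_floor_add_one (γ * n)
  have g1 := Nat.floor_le (show 0 ≤ α * n by positivity)
  have g2 := Nat.floor_le (show 0 ≤ β * n by positivity)
  have g3 := Nat.floor_le (show 0 ≤ γ * n by positivity)
  refine ⟨⌊α * n⌋₊, ⌊β * n⌋₊, ⌊γ * n⌋₊, ?_, ?_, ?_, ?_⟩
  · apply Nat.le_floor
    push_cast
    linarith
  all_goals
    have hs : (n : ℝ) < ((⌊α * n⌋₊ + ⌊β * n⌋₊ + ⌊γ * n⌋₊ : ℕ) : ℝ) := by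
      push_cast
      nlinarith
  · nlinarith
  · nlinarith
  · nlinarith

theorem ap_of {p P n : ℕ} {B : ℝ} (hp : 1 ≤ p) (hP : 1 ≤ P) (hn : 0 < n) {A x : ℕ} (h : n = A * x ^ (p * P))
    {c : ℝ} (hc : 1 ≤ c) (hnc : (n : ℝ) ≤ c) {K μ ν : ℝ} (hA : (A : ℝ) ≤ K * c ^ μ)
    (hPν : 1 / (P : ℝ) ≤ ν) (hK : 0 ≤ K) (hB : K * c ^ (μ + ν) ≤ B) : AP p B n := by
  have hx0 : x ≠ 0 := by
    rintro rfl
    rw [zero_pow (by positivity), mul_zero] at h
    omega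
  have hA0 : 0 < A := by
    rcases Nat.eq_zero_or_pos A with h0 | h0
    · rw [h0, zero_mul] at h; omega
    · exact h0
  have hx1 : 1 ≤ x := Nat.one_le_iff_ne_zero.2 hx0
  have hc0 : 0 < c := by linarith
  refine ⟨A, x ^ P, by rw [h, ← pow_mul, mul_comm P p], ?_⟩
  have h1 : R (x ^ P) ≤ x := by
    refine (R_le_of_primes hx0 fun l hl hd => hl.dvd_of_dvd_pow hd).trans (R_le hx1)
  have hP0 : (0 : ℝ) < P := by exact_mod_cast hP
  have h2 : (x : ℝ) ≤ c ^ ν := by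
    have h3 : (x : ℝ) ^ P ≤ c := by
      have : x ^ P ≤ n := by
        rw [h]
        calc x ^ P ≤ x ^ (p * P) := Nat.pow_le_pow_right hx1 (Nat.le_mul_of_pos_left _ hp)
          _ ≤ A * x ^ (p * P) := Nat.le_mul_of_pos_left _ hA0
      have h4 : ((x ^ P : ℕ) : ℝ) ≤ n := by exact_mod_cast this
      push_cast at h4
      linarith
    calc (x : ℝ) = ((x : ℝ) ^ P) ^ (1 / (P : ℝ)) := by
          rw [← Real.rpow_natCast, ← Real.rpow_mul (Nat.cast_nonneg _), mul_one_div_cancel hP0.ne',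
            Real.rpow_one]
      _ ≤ c ^ (1 / (P : ℝ)) := Real.rpow_le_rpow (by positivity) h3 (by positivity)
      _ ≤ c ^ ν := Real.rpow_le_rpow_of_exponent_le hc hPν
  calc (A * R (x ^ P) : ℝ) ≤ (K * c ^ μ) * c ^ ν := by
        apply mul_le_mul hA _ (Nat.cast_nonneg _) (by positivity)
        exact le_trans (by exact_mod_cast h1) h2
    _ = K * c ^ (μ + ν) := by rw [Real.rpow_add hc0]; ring
    _ ≤ B := hB

/-- from `c ^ k ≤ K c'` to `c ^ r ≤ K c' ^ (r / k)` -/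
theorem root_le {c c' K : ℝ} {k r : ℕ} (hk : 1 ≤ k) (hrk : r ≤ k) (hc : 0 ≤ c) (hc' : 0 ≤ c')
    (hK : 1 ≤ K) (h : c ^ k ≤ K * c') : c ^ r ≤ K * c' ^ ((r : ℝ) / k) := by
  have hk0 : (0 : ℝ) < k := by exact_mod_cast hk
  have h1 : (r : ℝ) / k ≤ 1 := by
    rw [div_le_one hk0]; exact_mod_cast hrk
  calc c ^ r = (c ^ k) ^ ((r : ℝ) / k) := by
        rw [← Real.rpow_natCast c k, ← Real.rpow_mul hc, mul_div_cancel₀ _ hk0.ne', Real.rpow_natCast]
    _ ≤ (K * c') ^ ((r : ℝ) / k) := Real.rpow_le_rpow (by positivity) h (by positivity)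
    _ = K ^ ((r : ℝ) / k) * c' ^ ((r : ℝ) / k) := Real.mul_rpow (by linarith) hc'
    _ ≤ K ^ (1 : ℝ) * c' ^ ((r : ℝ) / k) :=
        mul_le_mul_of_nonneg_right (Real.rpow_le_rpow_of_exponent_le hK h1) (by positivity)
    _ = _ := by rw [Real.rpow_one]

theorem absorb {K μ : ℝ} (hK : 1 ≤ K) (hμ : 0 < μ) {c : ℝ} (hc : K ^ (1 / μ) ≤ c) : K ≤ c ^ μ := by
  calc K = (K ^ (1 / μ)) ^ μ := by
        rw [← Real.rpow_mul (by linarith), one_div_mul_cancel hμ.ne', Real.rpow_one]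
    _ ≤ c ^ μ := Real.rpow_le_rpow (by positivity) hc hμ.le

/-- **every triple can be given every shape** -/
theorem main_map (p q r : ℕ) (hp : 1 ≤ p) (hq : 1 ≤ q) (hr : 1 ≤ r) (α β γ : ℝ) (hα : 0 < α)
    (hβ : 0 < β) (hγ : 0 < γ) (hs : 1 < α + β + γ) (N : ℕ) (hN : 0 < N) (η : ℝ) (hη : 0 < η) (J : ℕ) :
    ∃ (e k : ℕ) (K : ℝ) (c₀ : ℕ), 1 ≤ e ∧ 1 ≤ k ∧ 1 ≤ K ∧ ∀ a b c : ℕ, 0 < a → 0 < b →
      Nat.Coprime a b → a + b = c → c₀ ≤ c → ∃ t : ℕ, (c : ℝ) ≤ K * t ∧ ∀ j : ℕ, 1 ≤ j → j ≤ J →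
        ∃ a' b' c' : ℕ, Rel K (e * (k * j)) a b c a' b' c' ∧ ((t : ℝ) ^ k) ^ j ≤ K * c' ∧
          (c' : ℝ) ≤ K * ((t : ℝ) ^ k) ^ j ∧ N ∣ a' ∧ (a' : ℝ) ≤ η * c' ∧
          AP p ((c' : ℝ) ^ α) a' ∧ AP q ((c' : ℝ) ^ β) b' ∧ AP r ((c' : ℝ) ^ γ) c' := by
  -- smaller exponents
  set s := α + β + γ with hsdef
  set θ : ℝ := (1 + s) / (2 * s) with hθ
  have hs0 : 0 < s := by linarith
  have hθ0 : 0 < θ := by rw [hθ]; positivity
  have hθ1 : θ < 1 := by rw [hθ, div_lt_one (by positivity)]; linarith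
  have hθs : 1 < θ * s := by
    rw [hθ, div_mul_eq_mul_div, lt_div_iff₀ (by positivity)]
    nlinarith
  obtain ⟨u, v, w, hu, hu', hv', hw'⟩ := choose3 (θ * α) (θ * β) (θ * γ) (by positivity)
    (by positivity) (by positivity) (by
      have : θ * α + θ * β + θ * γ = θ * s := by rw [hsdef]; ring
      linarith)
  -- the exponent of the powers
  have h1θ : 0 < 1 - θ := by linarith
  obtain ⟨P, hP⟩ := exists_nat_gt (max (1 / ((1 - θ) * α / 2)) (max (1 / ((1 - θ) * β / 2))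
    (1 / ((1 - θ) * γ / 2))))
  have hPα : 1 / ((1 - θ) * α / 2) < P := lt_of_le_of_lt (le_max_left _ _) hP
  have hPβ : 1 / ((1 - θ) * β / 2) < P :=
    lt_of_le_of_lt ((le_max_left _ _).trans (le_max_right _ _)) hP
  have hPγ : 1 / ((1 - θ) * γ / 2) < P :=
    lt_of_le_of_lt ((le_max_right _ _).trans (le_max_right _ _)) hP
  have hP0 : (0 : ℝ) < P := lt_trans (by positivity) hPα
  have hP1 : 1 ≤ P := by
    have : 0 < P := by exact_mod_cast hP0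
    omega
  have hPα' : 1 / (P : ℝ) ≤ (1 - θ) * α / 2 := by
    rw [div_le_iff₀ hP0]
    rw [div_lt_iff₀ (by positivity)] at hPα
    linarith
  have hPβ' : 1 / (P : ℝ) ≤ (1 - θ) * β / 2 := by
    rw [div_le_iff₀ hP0]
    rw [div_lt_iff₀ (by positivity)] at hPβ
    linarith
  have hPγ' : 1 / (P : ℝ) ≤ (1 - θ) * γ / 2 := by
    rw [div_le_iff₀ hP0]
    rw [div_lt_iff₀ (by positivity)] at hPγ
    linarith
  have hpP : 1 ≤ p * P := Nat.one_le_iff_ne_zero.2 (by positivity)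
  have hqP : 1 ≤ q * P := Nat.one_le_iff_ne_zero.2 (by positivity)
  have hrP : 1 ≤ r * P := Nat.one_le_iff_ne_zero.2 (by positivity)
  set L : ℕ := 2 * ((q * P) * (r * P)) with hL
  have hL0 : 0 < L := by positivity
  have hLu : 1 ≤ L * u := Nat.one_le_iff_ne_zero.2 (by positivity)
  set r0 := L * u - 1 with hr0
  set r1 := L * v with hr1
  set ri := L * w with hri
  set k₀ := r0 + r1 + ri + 1 with hk₀
  have hk₀' : k₀ = L * (u + v + w) := by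
    rw [hk₀, hr0, hr1, hri, mul_add, mul_add]; omega
  have hk₀R : (0 : ℝ) < k₀ := by
    have : 0 < k₀ := by omega
    exact_mod_cast this
  have hLR : (0 : ℝ) < L := by exact_mod_cast hL0
  have hk₀R' : (k₀ : ℝ) = L * (u + v + w : ℕ) := by rw [hk₀']; push_cast; ring
  have q0 : (r0 : ℝ) / k₀ ≤ θ * α := by
    rw [div_le_iff₀ hk₀R, hk₀R']
    have : (r0 : ℝ) ≤ L * u := by
      have : r0 ≤ L * u := by omega
      exact_mod_cast this
    nlinarith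
  have q1 : (r1 : ℝ) / k₀ ≤ θ * β := by
    rw [div_le_iff₀ hk₀R, hk₀R', hr1]
    push_cast at hv' ⊢
    nlinarith
  have qi : (ri : ℝ) / k₀ ≤ θ * γ := by
    rw [div_le_iff₀ hk₀R, hk₀R', hri]
    push_cast at hw' ⊢
    nlinarith
  obtain ⟨Δ, K₄, δ₄, hΔ, hK₄, hδ₄, hst4⟩ := stage4 (p * P) (q * P) (r * P) r0 r1 ri hpP hqP hrP
    (by
      have : r0 + ri + 1 = L * u + L * w := by omega
      rw [this, hL]
      exact Dvd.intro ((r * P) * (2 * (u + w))) (by ring))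
    (by
      have : r0 + r1 + 1 = L * u + L * v := by omega
      rw [this, hL]
      exact Dvd.intro ((q * P) * (2 * (u + v))) (by ring))
    (by
      refine ⟨(q * P) * (r * P) * (v + w), ?_⟩
      rw [hr1, hri, hL]; ring)
  -- the localization
  set δ₂ : ℝ := min (min 1 δ₄) (η / K₄) with hδ₂
  have hδ₂0 : 0 < δ₂ := lt_min (lt_min one_pos hδ₄) (by positivity)
  have d1 : δ₂ ≤ 1 := (min_le_left _ _).trans (min_le_left _ _)
  have d2 : δ₂ ≤ δ₄ := (min_le_left _ _).trans (min_le_right _ _)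
  have d3 : δ₂ ≤ η / K₄ := min_le_right _ _
  obtain ⟨e, K₂, he, hK₂, hst2⟩ := stage12 (N * Δ) (by positivity) δ₂ hδ₂0
  -- the constant
  set T : ℕ := p * P * J with hT
  set K₃ : ℝ := K₄ * ((T : ℝ) + 1) ^ k₀ with hK₃
  have hT1 : (1 : ℝ) ≤ (T : ℝ) + 1 := by
    have : (0 : ℝ) ≤ T := Nat.cast_nonneg _
    linarith
  have hK₃1 : 1 ≤ K₃ := by
    rw [hK₃]
    exact one_le_mul_of_one_le_of_one_le hK₄ (one_le_pow₀ hT1)
  have hK₄3 : K₄ ≤ K₃ := by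
    rw [hK₃]
    exact le_mul_of_one_le_right (by linarith) (one_le_pow₀ hT1)
  set K : ℝ := K₃ * K₂ ^ (T * k₀ + 1) with hK
  have hK₂p : ∀ n, 1 ≤ K₂ ^ n := fun n => one_le_pow₀ hK₂
  have hK₃K : K₃ ≤ K := by rw [hK]; exact le_mul_of_one_le_right (by linarith) (hK₂p _)
  have hK1 : 1 ≤ K := hK₃1.trans hK₃K
  have hK₂K : K₂ ≤ K := by
    rw [hK]
    calc K₂ = 1 * K₂ ^ 1 := by ring
      _ ≤ _ := mul_le_mul hK₃1 (pow_le_pow_right₀ hK₂ (by omega)) (by positivity) (by linarith)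
  -- the threshold
  have hμα : 0 < (1 - θ) * α / 2 := by positivity
  have hμβ : 0 < (1 - θ) * β / 2 := by positivity
  have hμγ : 0 < (1 - θ) * γ / 2 := by positivity
  obtain ⟨c₀, hc₀⟩ := exists_nat_gt (K * max 1 (max ((K₄ * K₄) ^ (1 / ((1 - θ) * α / 2)))
    (max ((K₄ * K₄) ^ (1 / ((1 - θ) * β / 2))) ((K₄ * K₄) ^ (1 / ((1 - θ) * γ / 2))))))
  refine ⟨e, p * P * k₀, K, c₀, he, Nat.one_le_iff_ne_zero.2 (by positivity), hK1, ?_⟩
  intro a b c ha hb hab habc hc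
  obtain ⟨a₂, b₂, c₂, hrel2, hN2, hpos2⟩ := hst2 a b c ha hb hab habc
  have hc1 : (1 : ℝ) ≤ c := by exact_mod_cast (by omega : 1 ≤ c)
  have hc₂0 : 0 < c₂ := by have := hrel2.sum; have := hrel2.a0; omega
  refine ⟨c₂, ?_, ?_⟩
  · calc (c : ℝ) = (c : ℝ) ^ 1 := (pow_one _).symm
      _ ≤ (c : ℝ) ^ e := pow_le_pow_right₀ hc1 he
      _ ≤ K₂ * c₂ := hrel2.low
      _ ≤ K * c₂ := mul_le_mul_of_nonneg_right hK₂K (Nat.cast_nonneg _)
  intro j hj1 hjJ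
  set m := p * P * j with hm
  have hm1 : 1 ≤ m := Nat.one_le_iff_ne_zero.2 (by positivity)
  have hmT : m ≤ T := Nat.mul_le_mul_left _ hjJ
  have hrel3 := rel_pow m hm1 a₂ b₂ c₂ hrel2.a0 hrel2.b0 hrel2.cop hrel2.sum
  have hc₂R : (0 : ℝ) < c₂ := by exact_mod_cast hc₂0
  have ha₂c₂ : (a₂ : ℝ) ≤ c₂ := by
    have : a₂ ≤ c₂ := by have := hrel2.sum; omega
    exact_mod_cast this
  have hpos3 : ((a₂ ^ m : ℕ) : ℝ) ≤ δ₂ * ((c₂ ^ m : ℕ) : ℝ) := by
    push_cast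
    obtain ⟨m', hm'⟩ : ∃ m', m = m' + 1 := ⟨m - 1, by omega⟩
    rw [hm', pow_succ, pow_succ]
    calc (a₂ : ℝ) ^ m' * a₂ ≤ (c₂ : ℝ) ^ m' * (δ₂ * c₂) :=
          mul_le_mul (pow_le_pow_left₀ (Nat.cast_nonneg _) ha₂c₂ _) hpos2 (Nat.cast_nonneg _)
            (by positivity)
      _ = _ := by ring
  have hc₃R : (0 : ℝ) < ((c₂ ^ m : ℕ) : ℝ) := by positivity
  obtain ⟨a', b', c', hrel4, hN4, hpos4, ⟨A, x, hA, hA'⟩, ⟨B, y, hB, hB'⟩, ⟨C, z, hC, hC'⟩⟩ :=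
    hst4 (a₂ ^ m) (c₂ ^ m - a₂ ^ m) (c₂ ^ m) (a₂ ^ j) hrel3.a0 hrel3.b0 hrel3.cop hrel3.sum
      (by rw [← pow_mul, hm, mul_comm j]) (hpos3.trans (mul_le_mul_of_nonneg_right d2 hc₃R.le))
  have hc'0 : 0 < c' := by have := hrel4.sum; have := hrel4.a0; omega
  have hc'R : (0 : ℝ) < c' := by exact_mod_cast hc'0
  have hmR : (1 : ℝ) ≤ m := by exact_mod_cast hm1
  have hmTR : (m : ℝ) ≤ (T : ℝ) + 1 := by
    have : (m : ℝ) ≤ T := by exact_mod_cast hmT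
    linarith
  -- the whole map
  have hrel : Rel K (e * (p * P * k₀ * j)) a b c a' b' c' := by
    have h34 := hrel3.comp hmR hK₄ hm1 (by omega) hrel4
    have h34' : Rel K₃ (m * k₀) a₂ b₂ c₂ a' b' c' := h34.mono (by
      rw [hK₃]
      exact mul_le_mul_of_nonneg_left (pow_le_pow_left₀ (by linarith) hmTR _) (by linarith))
    have h := hrel2.comp hK₂ hK₃1 he (Nat.one_le_iff_ne_zero.2 (by positivity)) h34'
    have e1 : m * k₀ = p * P * k₀ * j := by rw [hm]; ring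
    rw [← e1]
    refine h.mono ?_
    rw [hK]
    apply mul_le_mul_of_nonneg_left _ (by linarith)
    apply pow_le_pow_right₀ hK₂
    have : m * k₀ ≤ T * k₀ := Nat.mul_le_mul_right _ hmT
    omega
  have hpow : ((c₂ : ℝ) ^ (p * P * k₀)) ^ j = ((c₂ ^ m : ℕ) : ℝ) ^ k₀ := by
    push_cast
    rw [← pow_mul, ← pow_mul, hm]
    congr 1
    ring
  -- `c'` is large
  have hbig : max 1 (max ((K₄ * K₄) ^ (1 / ((1 - θ) * α / 2)))
      (max ((K₄ * K₄) ^ (1 / ((1 - θ) * β / 2))) ((K₄ * K₄) ^ (1 / ((1 - θ) * γ / 2))))) ≤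
      (c' : ℝ) := by
    have h1 : (c : ℝ) ≤ K * c' := by
      refine le_trans ?_ hrel.low
      calc (c : ℝ) = (c : ℝ) ^ 1 := (pow_one _).symm
        _ ≤ _ := pow_le_pow_right₀ hc1 (Nat.one_le_iff_ne_zero.2 (by positivity))
    have h2 : (c₀ : ℝ) ≤ c := by exact_mod_cast hc
    have h3 := hc₀.le.trans (h2.trans h1)
    exact le_of_mul_le_mul_left h3 (by linarith)
  have b1 : (1 : ℝ) ≤ c' := (le_max_left _ _).trans hbig
  have b2 := (le_max_left _ _).trans ((le_max_right _ _).trans hbig)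
  have b3 := (le_max_left _ _).trans ((le_max_right _ _).trans ((le_max_right _ _).trans hbig))
  have b4 := (le_max_right _ _).trans ((le_max_right _ _).trans ((le_max_right _ _).trans hbig))
  have hKK : 1 ≤ K₄ * K₄ := one_le_mul_of_one_le_of_one_le hK₄ hK₄
  refine ⟨a', b', c', hrel, ?_, ?_, ?_, ?_, ?_, ?_, ?_⟩
  · rw [hpow]
    exact hrel4.low.trans (mul_le_mul_of_nonneg_right (hK₄3.trans hK₃K) hc'R.le)
  · rw [hpow]
    exact hrel4.up.trans (mul_le_mul_of_nonneg_right (hK₄3.trans hK₃K) (by positivity))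
  · exact hN4 N (hN2.trans (dvd_pow_self a₂ (by omega)))
  · -- position
    have h1 : (a' : ℝ) * ((c₂ ^ m : ℕ) : ℝ) ≤ (η * c') * ((c₂ ^ m : ℕ) : ℝ) := by
      calc (a' : ℝ) * ((c₂ ^ m : ℕ) : ℝ) ≤ K₄ * (((a₂ ^ m : ℕ) : ℝ) * c') := hpos4
        _ ≤ K₄ * ((η / K₄ * ((c₂ ^ m : ℕ) : ℝ)) * c') := by
            apply mul_le_mul_of_nonneg_left _ (by linarith)
            apply mul_le_mul_of_nonneg_right _ hc'R.le
            exact hpos3.trans (mul_le_mul_of_nonneg_right d3 hc₃R.le)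
        _ = _ := by field_simp
    exact le_of_mul_le_mul_right h1 hc₃R
  · refine ap_of (ν := (1 - θ) * α / 2) (μ := θ * α) (K := K₄ * K₄) hp hP1 hrel4.a0 hA b1 ?_ ?_ hPα'
      (by linarith) ?_
    · have : a' ≤ c' := by have := hrel4.sum; omega
      exact_mod_cast this
    · calc (A : ℝ) ≤ K₄ * ((c₂ ^ m : ℕ) : ℝ) ^ r0 := hA'
        _ ≤ K₄ * (K₄ * (c' : ℝ) ^ ((r0 : ℝ) / k₀)) := by
            apply mul_le_mul_of_nonneg_left _ (by linarith)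
            exact root_le (by omega) (by omega) hc₃R.le hc'R.le hK₄ hrel4.low
        _ ≤ K₄ * (K₄ * (c' : ℝ) ^ (θ * α)) := by
            apply mul_le_mul_of_nonneg_left _ (by linarith)
            apply mul_le_mul_of_nonneg_left _ (by linarith)
            exact Real.rpow_le_rpow_of_exponent_le b1 q0
        _ = _ := by ring
    · calc K₄ * K₄ * (c' : ℝ) ^ (θ * α + (1 - θ) * α / 2)
          ≤ (c' : ℝ) ^ ((1 - θ) * α / 2) * (c' : ℝ) ^ (θ * α + (1 - θ) * α / 2) :=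
            mul_le_mul_of_nonneg_right (absorb hKK hμα b2) (by positivity)
        _ = (c' : ℝ) ^ α := by
            rw [← Real.rpow_add hc'R]; congr 1; ring
  · refine ap_of (ν := (1 - θ) * β / 2) (μ := θ * β) (K := K₄ * K₄) hq hP1 hrel4.b0 hB b1 ?_ ?_ hPβ'
      (by linarith) ?_
    · have : b' ≤ c' := by have := hrel4.sum; omega
      exact_mod_cast this
    · calc (B : ℝ) ≤ K₄ * ((c₂ ^ m : ℕ) : ℝ) ^ r1 := hB'
        _ ≤ K₄ * (K₄ * (c' : ℝ) ^ ((r1 : ℝ) / k₀)) := by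
            apply mul_le_mul_of_nonneg_left _ (by linarith)
            exact root_le (by omega) (by omega) hc₃R.le hc'R.le hK₄ hrel4.low
        _ ≤ K₄ * (K₄ * (c' : ℝ) ^ (θ * β)) := by
            apply mul_le_mul_of_nonneg_left _ (by linarith)
            apply mul_le_mul_of_nonneg_left _ (by linarith)
            exact Real.rpow_le_rpow_of_exponent_le b1 q1
        _ = _ := by ring
    · calc K₄ * K₄ * (c' : ℝ) ^ (θ * β + (1 - θ) * β / 2)
          ≤ (c' : ℝ) ^ ((1 - θ) * β / 2) * (c' : ℝ) ^ (θ * β + (1 - θ) * β / 2) :=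
            mul_le_mul_of_nonneg_right (absorb hKK hμβ b3) (by positivity)
        _ = (c' : ℝ) ^ β := by
            rw [← Real.rpow_add hc'R]; congr 1; ring
  · refine ap_of (ν := (1 - θ) * γ / 2) (μ := θ * γ) (K := K₄ * K₄) hr hP1 hc'0 hC b1 le_rfl ?_ hPγ'
      (by linarith) ?_
    · calc (C : ℝ) ≤ K₄ * ((c₂ ^ m : ℕ) : ℝ) ^ ri := hC'
        _ ≤ K₄ * (K₄ * (c' : ℝ) ^ ((ri : ℝ) / k₀)) := by
            apply mul_le_mul_of_nonneg_left _ (by linarith)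
            exact root_le (by omega) (by omega) hc₃R.le hc'R.le hK₄ hrel4.low
        _ ≤ K₄ * (K₄ * (c' : ℝ) ^ (θ * γ)) := by
            apply mul_le_mul_of_nonneg_left _ (by linarith)
            apply mul_le_mul_of_nonneg_left _ (by linarith)
            exact Real.rpow_le_rpow_of_exponent_le b1 qi
        _ = _ := by ring
    · calc K₄ * K₄ * (c' : ℝ) ^ (θ * γ + (1 - θ) * γ / 2)
          ≤ (c' : ℝ) ^ ((1 - θ) * γ / 2) * (c' : ℝ) ^ (θ * γ + (1 - θ) * γ / 2) :=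
            mul_le_mul_of_nonneg_right (absorb hKK hμγ b4) (by positivity)
        _ = (c' : ℝ) ^ γ := by
            rw [← Real.rpow_add hc'R]; congr 1; ring

end Pool.Agent.H34x.ES
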