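import Mathlib
import Pool.Agent.H34x.ES.Main

/-!
# Windows, and the transfer of exceptional triples
-/

set_option autoImplicit false

namespace Pool.Agent.H34x.ES

open Filter
open Pool.Agent.N746.Self (R R_pos R_le R_le_of_primes R_mul_le window transfer ABC)

/-- the triples at the cusp `a = 0` with the shape given by `α, β, γ` and the powers `p, q, r`, in
the windows -/
structure Shp (p q r : ℕ) (α β γ : ℝ) (N : ℕ) (η δ : ℝ) (Y : ℕ → ℝ) (a b c : ℕ) : Prop where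
  ta : AP p ((c : ℝ) ^ α) a
  tb : AP q ((c : ℝ) ^ β) b
  tc : AP r ((c : ℝ) ^ γ) c
  dvd : N ∣ a
  pos : (a : ℝ) ≤ η * c
  win : ∃ i, Y i ≤ c ∧ (c : ℝ) ≤ (Y i) ^ (1 + δ)

theorem main_window (p q r : ℕ) (hp : 1 ≤ p) (hq : 1 ≤ q) (hr : 1 ≤ r) (α β γ : ℝ) (hα : 0 < α)
    (hβ : 0 < β) (hγ : 0 < γ) (hs : 1 < α + β + γ) (N : ℕ) (hN : 0 < N) (η : ℝ) (hη : 0 < η)
    (δ : ℝ) (hδ : 0 < δ) (ρ : ℕ) (Y : ℕ → ℝ) (hY : ∀ i, 1 < Y i) (hYt : Tendsto Y atTop atTop)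
    (hYr : ∀ i, Y (i + 1) ≤ (Y i) ^ ρ) :
    ∃ (D : ℕ) (K : ℝ) (c₀ : ℕ), 1 ≤ K ∧ ∀ a b c : ℕ, 0 < a → 0 < b → Nat.Coprime a b → a + b = c →
      c₀ ≤ c → ∃ d a' b' c' : ℕ, 1 ≤ d ∧ d ≤ D ∧ Rel K d a b c a' b' c' ∧
        Shp p q r α β γ N η δ Y a' b' c' := by
  obtain ⟨A, hA⟩ := exists_nat_gt (max 1 (2 / (δ / 2)))
  have hA1 : (1 : ℝ) < A := lt_of_le_of_lt (le_max_left _ _) hA
  have hA2 : 2 ≤ A * (δ / 2) := by
    have h1 : 2 / (δ / 2) < A := lt_of_le_of_lt (le_max_right _ _) hA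
    rw [div_lt_iff₀ (by linarith)] at h1
    exact h1.le
  have hA1' : 1 < A := by exact_mod_cast hA1
  obtain ⟨e, k, K, c₀, he, hk, hK, hmap⟩ := main_map p q r hp hq hr α β γ hα hβ hγ hs N hN η hη
    (ρ * A + 1)
  -- the threshold
  set κ : ℝ := K ^ ((1 + δ / 2) / (δ / 2)) with hκ
  obtain ⟨c₁, hc₁⟩ := exists_nat_gt (K * max (max 2 K) (max κ (Y 0 + 1)))
  refine ⟨e * (k * (ρ * A + 1)), K, max c₀ c₁, hK, ?_⟩
  intro a b c ha hb hab habc hc
  obtain ⟨t, ht, hj⟩ := hmap a b c ha hb hab habc ((le_max_left _ _).trans hc)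
  have ht1 : max (max 2 K) (max κ (Y 0 + 1)) ≤ (t : ℝ) := by
    have h1 : (c₁ : ℝ) ≤ c := by exact_mod_cast (le_max_right _ _).trans hc
    exact le_of_mul_le_mul_left (hc₁.le.trans (h1.trans ht)) (by linarith)
  have t1 : (2 : ℝ) ≤ t := (le_max_left _ _).trans ((le_max_left _ _).trans ht1)
  have t2 : K ≤ t := (le_max_right _ _).trans ((le_max_left _ _).trans ht1)
  have t3 : κ ≤ t := (le_max_left _ _).trans ((le_max_right _ _).trans ht1)
  have t4 : Y 0 + 1 ≤ t := (le_max_right _ _).trans ((le_max_right _ _).trans ht1)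
  have htk : (t : ℝ) ≤ (t : ℝ) ^ k := by
    calc (t : ℝ) = (t : ℝ) ^ 1 := (pow_one _).symm
      _ ≤ _ := pow_le_pow_right₀ (by linarith) hk
  obtain ⟨j, i, hAj, hjJ, hj1, hj2⟩ := window ρ A (δ / 2) (by linarith) hA2 Y hY hYt hYr K
    ((t : ℝ) ^ k) hK (t2.trans htk) (by linarith) (by linarith)
  have hj0 : 1 ≤ j := by omega
  obtain ⟨a', b', c', hrel, h1, h2, h3, h4, h5, h6, h7⟩ := hj j hj0 hjJ
  have hYi := hY i
  refine ⟨e * (k * j), a', b', c', Nat.one_le_iff_ne_zero.2 (by positivity),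
    Nat.mul_le_mul_left _ (Nat.mul_le_mul_left _ hjJ), hrel, ⟨h5, h6, h7, h3, h4, i, ?_, ?_⟩⟩
  · have : K * Y i ≤ K * c' := by
      calc K * Y i = Y i * K := mul_comm _ _
        _ ≤ ((t : ℝ) ^ k) ^ j := hj1
        _ ≤ K * c' := h1
    exact le_of_mul_le_mul_left this (by linarith)
  · -- the upper end
    have hδ2 : 0 < δ / 2 := by linarith
    have hpos : 0 < 1 + δ / 2 := by linarith
    have h8 : κ ≤ (Y i) ^ (1 + δ / 2) := by
      refine t3.trans (htk.trans (le_trans ?_ hj2))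
      calc (t : ℝ) ^ k = ((t : ℝ) ^ k) ^ 1 := (pow_one _).symm
        _ ≤ _ := pow_le_pow_right₀ (by linarith) hj0
    have h9 : K ≤ (Y i) ^ (δ / 2) := by
      calc K = κ ^ ((δ / 2) / (1 + δ / 2)) := by
            rw [hκ, ← Real.rpow_mul (by linarith), div_mul_div_comm, mul_comm (1 + δ / 2),
              div_self (by positivity), Real.rpow_one]
        _ ≤ ((Y i) ^ (1 + δ / 2)) ^ ((δ / 2) / (1 + δ / 2)) :=
            Real.rpow_le_rpow (by positivity) h8 (by positivity)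
        _ = _ := by
            rw [← Real.rpow_mul (by linarith), mul_div_cancel₀ _ hpos.ne']
    calc (c' : ℝ) ≤ K * ((t : ℝ) ^ k) ^ j := h2
      _ ≤ (Y i) ^ (δ / 2) * (Y i) ^ (1 + δ / 2) := mul_le_mul h9 hj2 (by positivity) (by positivity)
      _ = _ := by
          rw [← Real.rpow_add (by linarith)]; congr 1; ring

/-- **Theorem 1** -/
theorem abc_shp (p q r : ℕ) (hp : 1 ≤ p) (hq : 1 ≤ q) (hr : 1 ≤ r) (α β γ : ℝ) (hα : 0 < α)
    (hβ : 0 < β) (hγ : 0 < γ) (hs : 1 < α + β + γ) (N : ℕ) (hN : 0 < N) (η : ℝ) (hη : 0 < η)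
    (δ : ℝ) (hδ : 0 < δ) (ρ : ℕ) (Y : ℕ → ℝ) (hY : ∀ i, 1 < Y i) (hYt : Tendsto Y atTop atTop)
    (hYr : ∀ i, Y (i + 1) ≤ (Y i) ^ ρ) :
    ABC (Shp p q r α β γ N η δ Y) ↔ ABC fun _ _ _ => True := by
  refine ⟨fun hT => ?_, fun h ε hε => ?_⟩
  · obtain ⟨D, K, c₀, hK, hmap⟩ := main_window p q r hp hq hr α β γ hα hβ hγ hs N hN η hη δ hδ ρ Y hY
      hYt hYr
    refine transfer _ D K c₀ hK ?_ hT
    intro a b c ha hb hab habc hc
    obtain ⟨d, a', b', c', hd1, hdD, hrel, hshp⟩ := hmap a b c ha hb hab habc hc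
    exact ⟨d, a', b', c', hd1, hdD, hrel.a0, hrel.b0, hrel.cop, hrel.sum, hshp, hrel.low, hrel.rad⟩
  · obtain ⟨κ, hκ⟩ := h ε hε
    exact ⟨κ, fun a b c ha hb hab habc _ => hκ a b c ha hb hab habc trivial⟩

/-- a map of triples does not lose quality -/
theorem Rel.quality {K : ℝ} {d a b c a' b' c' : ℕ} (hK : 1 ≤ K) (hd : 1 ≤ d)
    (h : Rel K d a b c a' b' c') :
    (c : ℝ) * R (a' * b' * c') ≤ K ^ 2 * (c' * R (a * b * c)) := by
  have hR : (0 : ℝ) ≤ R (a * b * c) := Nat.cast_nonneg _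
  have hc : (0 : ℝ) ≤ c := Nat.cast_nonneg _
  calc (c : ℝ) * R (a' * b' * c') ≤ c * (K * R (a * b * c) * (c : ℝ) ^ (d - 1)) :=
        mul_le_mul_of_nonneg_left h.rad hc
    _ = K * R (a * b * c) * (c : ℝ) ^ d := by
        obtain ⟨d', rfl⟩ := Nat.exists_eq_add_of_le' hd
        rw [Nat.add_sub_cancel, pow_succ]; ring
    _ ≤ K * R (a * b * c) * (K * c') := mul_le_mul_of_nonneg_left h.low (by positivity)
    _ = _ := by ring

/-- growth of `√x / log x` -/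
theorem sqrt_div_log {x : ℝ} (hx : 1 < x) : x ^ (1 / 4 : ℝ) / 4 ≤ √x / Real.log x := by
  have hl : 0 < Real.log x := Real.log_pos hx
  have hx0 : 0 < x := by linarith
  have h1 : Real.log x ≤ 4 * x ^ (1 / 4 : ℝ) := by
    have h2 : Real.log (x ^ (1 / 4 : ℝ)) = 1 / 4 * Real.log x := Real.log_rpow hx0 _
    have h3 := Real.log_le_sub_one_of_pos (show 0 < x ^ (1 / 4 : ℝ) by positivity)
    rw [h2] at h3
    linarith
  rw [div_le_div_iff₀ (by norm_num) hl]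
  have h4 : √x = x ^ (1 / 4 : ℝ) * x ^ (1 / 4 : ℝ) := by
    rw [← Real.rpow_add hx0, Real.sqrt_eq_rpow]; norm_num
  rw [h4]
  have h5 : 0 < x ^ (1 / 4 : ℝ) := by positivity
  nlinarith

end Pool.Agent.H34x.ES
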