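import Mathlib
import Pool.Agent.H34x.ES.Win

/-!
# Hits of every shape in all intervals `[Y, K Y]`
-/

set_option autoImplicit false

namespace Pool.Agent.H34x.ES

open Pool.Agent.N746.Self (R R_pos R_le R_le_of_primes R_mul_le)

theorem two_pow_dvd (s : ℕ) : (2 : ℤ) ^ (s + 3) ∣ 9 ^ (2 ^ s) - 1 := by
  induction s with
  | zero => norm_num
  | succ s ih =>
    have e : (9 : ℤ) ^ (2 ^ (s + 1)) - 1 = (9 ^ (2 ^ s) - 1) * (9 ^ (2 ^ s) + 1) := by
      rw [pow_succ 2 s, pow_mul]; ring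
    have h2 : (2 : ℤ) ∣ 9 ^ (2 ^ s) + 1 := by
      have : Odd ((9 : ℤ) ^ (2 ^ s)) := Odd.pow (by decide)
      exact (this.add_odd odd_one).two_dvd
    rw [e, show s + 1 + 3 = (s + 3) + 1 by ring, pow_succ]
    exact mul_dvd_mul ih h2

/-- the triples `1 + (9 ^ (2 ^ s n) - 1) = 9 ^ (2 ^ s n)` -/
theorem base (s n : ℕ) (hn : 1 ≤ n) : 2 ^ s * R (1 * (9 ^ (2 ^ s * n) - 1) * 9 ^ (2 ^ s * n)) ≤
    9 ^ (2 ^ s * n) := by
  have hE : 2 ^ s * n ≠ 0 := by positivity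
  have h1 : (2 : ℕ) ^ (s + 3) ∣ 9 ^ (2 ^ s * n) - 1 := by
    have h2 : (1 : ℕ) ≤ 9 ^ (2 ^ s * n) := Nat.one_le_pow _ _ (by norm_num)
    have h3 : ((2 : ℤ) ^ (s + 3)) ∣ ((9 ^ (2 ^ s * n) - 1 : ℕ) : ℤ) := by
      push_cast [Nat.cast_sub h2]
      rw [pow_mul]
      refine (two_pow_dvd s).trans ?_
      have := sub_dvd_pow_sub_pow ((9 : ℤ) ^ (2 ^ s)) 1 n
      rwa [one_pow] at this
    exact_mod_cast h3
  obtain ⟨w, hw⟩ := h1
  have h9 : 9 ≤ 9 ^ (2 ^ s * n) := Nat.le_self_pow hE 9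
  have hw0 : w ≠ 0 := by
    rintro rfl
    rw [mul_zero] at hw
    omega
  have h2 : R (1 * (9 ^ (2 ^ s * n) - 1) * 9 ^ (2 ^ s * n)) ≤ 6 * w := by
    refine (R_le_of_primes (n := 6 * w) (by positivity) ?_).trans (R_le (by positivity))
    intro p hp hd
    rw [one_mul] at hd
    rcases (hp.dvd_mul).1 hd with h | h
    · rw [hw] at h
      rcases (hp.dvd_mul).1 h with h | h
      · exact ((hp.dvd_of_dvd_pow h).trans (by norm_num : 2 ∣ 6)).mul_right _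
      · exact h.mul_left _
    · have h3 := hp.dvd_of_dvd_pow h
      have : p ∣ 3 := by
        rw [show (9 : ℕ) = 3 ^ 2 by norm_num] at h3
        exact hp.dvd_of_dvd_pow h3
      exact (this.trans (by norm_num : 3 ∣ 6)).mul_right _
  calc 2 ^ s * R (1 * (9 ^ (2 ^ s * n) - 1) * 9 ^ (2 ^ s * n)) ≤ 2 ^ s * (6 * w) :=
        Nat.mul_le_mul_left _ h2
    _ ≤ 2 ^ (s + 3) * w := by
        rw [pow_add]
        nlinarith [Nat.zero_le (2 ^ s * w)]
    _ = 9 ^ (2 ^ s * n) - 1 := hw.symm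
    _ ≤ _ := Nat.sub_le _ _

theorem hits_dense (d : ℕ) (hd : 1 ≤ d) (K : ℝ) (c₀ : ℕ) (hK : 1 ≤ K) (T : ℕ → ℕ → ℕ → Prop)
    (hmap : ∀ a b c : ℕ, 0 < a → 0 < b → Nat.Coprime a b → a + b = c → c₀ ≤ c →
      ∃ a' b' c' : ℕ, Rel K d a b c a' b' c' ∧ T a' b' c') (C : ℝ) :
    ∃ K' Y₀ : ℝ, ∀ Y : ℝ, Y₀ ≤ Y → ∃ a b c : ℕ, 0 < a ∧ 0 < b ∧ Nat.Coprime a b ∧ a + b = c ∧
      T a b c ∧ Y ≤ c ∧ (c : ℝ) ≤ K' * Y ∧ C * R (a * b * c) ≤ c := by
  obtain ⟨s, hs⟩ := pow_unbounded_of_one_lt (C * K ^ 2) (show (1 : ℝ) < 2 by norm_num)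
  set B : ℝ := (9 : ℝ) ^ (2 ^ s) with hB
  have hB1 : 1 < B := one_lt_pow₀ (by norm_num) (by positivity)
  have hBd : 1 < B ^ d := one_lt_pow₀ hB1 (by omega)
  refine ⟨K ^ 2 * B ^ d, max 2 ((c₀ : ℝ) ^ d), fun Y hY => ?_⟩
  have hY2 : 2 ≤ Y := (le_max_left _ _).trans hY
  have hYc : (c₀ : ℝ) ^ d ≤ Y := (le_max_right _ _).trans hY
  have hex : ∃ n : ℕ, K * Y ≤ (B ^ d) ^ n := by
    obtain ⟨n, hn⟩ := pow_unbounded_of_one_lt (K * Y) hBd
    exact ⟨n, hn.le⟩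
  classical
  set n := Nat.find hex with hn
  have hn1 : K * Y ≤ (B ^ d) ^ n := Nat.find_spec hex
  have hn0 : n ≠ 0 := by
    intro h0
    rw [h0, pow_zero] at hn1
    nlinarith
  obtain ⟨n', hn'⟩ : ∃ n', n = n' + 1 := ⟨n - 1, by omega⟩
  have hn2 : (B ^ d) ^ n' < K * Y := by
    have := Nat.find_min hex (show n' < Nat.find hex by omega)
    push Not at this
    exact this
  set c : ℕ := 9 ^ (2 ^ s * n) with hc
  have hcR : (c : ℝ) = B ^ n := by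
    rw [hc, hB, Nat.cast_pow, pow_mul]; norm_num
  have hcd : (c : ℝ) ^ d = (B ^ d) ^ n := by
    rw [hcR, ← pow_mul B n d, ← pow_mul B d n, mul_comm n d]
  have hE : 2 ^ s * n ≠ 0 := by positivity
  have h9 : 9 ≤ c := Nat.le_self_pow hE 9
  have hc₀ : c₀ ≤ c := by
    have h1 : (c₀ : ℝ) ^ d ≤ (c : ℝ) ^ d := by
      rw [hcd]
      nlinarith
    have h2 : (c₀ : ℝ) ≤ c := by
      by_contra h
      push Not at h
      have := pow_lt_pow_left₀ h (Nat.cast_nonneg _) (show d ≠ 0 by omega)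
      linarith
    exact_mod_cast h2
  obtain ⟨a', b', c', hrel, hT⟩ := hmap 1 (c - 1) c one_pos (by omega) (Nat.coprime_one_left _)
    (by omega) hc₀
  have hc'0 : 0 < c' := by have := hrel.sum; have := hrel.a0; omega
  have hc'R : (0 : ℝ) < c' := by exact_mod_cast hc'0
  refine ⟨a', b', c', hrel.a0, hrel.b0, hrel.cop, hrel.sum, hT, ?_, ?_, ?_⟩
  · have h1 : K * Y ≤ K * c' := hn1.trans (hcd ▸ hrel.low)
    exact le_of_mul_le_mul_left h1 (by linarith)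
  · calc (c' : ℝ) ≤ K * (c : ℝ) ^ d := hrel.up
      _ = K * ((B ^ d) ^ n' * B ^ d) := by rw [hcd, hn', pow_succ]
      _ ≤ K * ((K * Y) * B ^ d) := by
          apply mul_le_mul_of_nonneg_left _ (by linarith)
          exact mul_le_mul_of_nonneg_right hn2.le (by positivity)
      _ = _ := by ring
  · have h1 := hrel.quality hK hd
    have h2 : (2 : ℝ) ^ s * R (1 * (c - 1) * c) ≤ c := by
      exact_mod_cast base s n (by omega)
    have hR' : (0 : ℝ) ≤ R (a' * b' * c') := Nat.cast_nonneg _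
    have hc0R : (0 : ℝ) < c := by exact_mod_cast (by omega : 0 < c)
    have hRb : (0 : ℝ) ≤ R (1 * (c - 1) * c) := Nat.cast_nonneg _
    -- `c R' C ≤ C K² c' R ≤ 2^s c' R ≤ c' c`
    rcases le_or_gt C 0 with hC | hC
    · have : C * R (a' * b' * c') ≤ 0 := mul_nonpos_of_nonpos_of_nonneg hC hR'
      linarith
    · have h3 : (c : ℝ) * (C * R (a' * b' * c')) ≤ c * c' := by
        calc (c : ℝ) * (C * R (a' * b' * c')) = C * (c * R (a' * b' * c')) := by ring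
          _ ≤ C * (K ^ 2 * (c' * R (1 * (c - 1) * c))) := mul_le_mul_of_nonneg_left h1 hC.le
          _ = (C * K ^ 2) * (c' * R (1 * (c - 1) * c)) := by ring
          _ ≤ 2 ^ s * (c' * R (1 * (c - 1) * c)) :=
              mul_le_mul_of_nonneg_right hs.le (by positivity)
          _ = c' * (2 ^ s * R (1 * (c - 1) * c)) := by ring
          _ ≤ c' * c := mul_le_mul_of_nonneg_left h2 hc'R.le
          _ = _ := by ring
      exact le_of_mul_le_mul_left h3 hc0R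

end Pool.Agent.H34x.ES
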