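import Mathlib
import Pool.Agent.H34x.ES.Win
import Pool.Agent.Results.MP_7aad9f_nt.LargerConstant

/-!
# Exceptional triples of every shape
-/

set_option autoImplicit false

namespace Pool.Agent.H34x.ES

open Filter
open Pool.Agent.N746.Self (R R_pos)

/-- the transfer of the merit -/
theorem merit_map (D : ℕ) (K : ℝ) (c₀ : ℕ) (hK : 1 ≤ K) (T : ℕ → ℕ → ℕ → Prop)
    (hmap : ∀ a b c : ℕ, 0 < a → 0 < b → Nat.Coprime a b → a + b = c → c₀ ≤ c →
      ∃ d a' b' c' : ℕ, 1 ≤ d ∧ d ≤ D ∧ Rel K d a b c a' b' c' ∧ T a' b' c') :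
    ∃ κ : ℝ, 0 < κ ∧ ∀ X : ℝ, ∃ a b c : ℕ, 0 < a ∧ 0 < b ∧ Nat.Coprime a b ∧ a + b = c ∧ X < c ∧
      T a b c ∧ (R (a * b * c) : ℝ) * Real.exp (κ * √(Real.log c) / Real.log (Real.log c)) < c := by
  have hD0 : (0 : ℝ) ≤ D := Nat.cast_nonneg _
  have hsD : 0 < √((D : ℝ) + 1) := Real.sqrt_pos.2 (by linarith)
  refine ⟨1 / (2 * √((D : ℝ) + 1)), by positivity, fun X => ?_⟩
  have hlK : 0 ≤ Real.log K := Real.log_nonneg hK
  set M : ℝ := max 4 (max (2 * Real.log K) ((4 * Real.log K) ^ (4 : ℕ))) with hM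
  obtain ⟨a, b, c, ha, hb, hab, habc, hX, hlt⟩ :=
    Pool.Agent.Results.MP_7aad9f_nt.LargerConstant.result 6.84 le_rfl
      (max (max (K * X) c₀) (Real.exp M))
  have hX1 : K * X < c := lt_of_le_of_lt ((le_max_left _ _).trans (le_max_left _ _)) hX
  have hX2 : (c₀ : ℝ) < c := lt_of_le_of_lt ((le_max_right _ _).trans (le_max_left _ _)) hX
  have hX3 : Real.exp M < c := lt_of_le_of_lt (le_max_right _ _) hX
  have hc0 : (0 : ℝ) < c := by exact_mod_cast (by omega : 0 < c)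
  have hc1 : (1 : ℝ) ≤ c := by exact_mod_cast (by omega : 1 ≤ c)
  obtain ⟨d, a', b', c', hd1, hdD, hrel, hT⟩ := hmap a b c ha hb hab habc (by exact_mod_cast hX2.le)
  have hc'0 : 0 < c' := by have := hrel.sum; have := hrel.a0; omega
  have hc'R : (0 : ℝ) < c' := by exact_mod_cast hc'0
  have hcc' : (c : ℝ) ≤ K * c' := by
    refine le_trans ?_ hrel.low
    calc (c : ℝ) = (c : ℝ) ^ 1 := (pow_one _).symm
      _ ≤ _ := pow_le_pow_right₀ hc1 hd1
  set ℓ := Real.log c with hℓ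
  have hℓM : M < ℓ := by
    have := Real.log_lt_log (Real.exp_pos _) hX3
    rwa [Real.log_exp] at this
  have m1 : 4 ≤ M := le_max_left _ _
  have m2 : 2 * Real.log K ≤ M := (le_max_left _ _).trans (le_max_right _ _)
  have m3 : (4 * Real.log K) ^ (4 : ℕ) ≤ M := (le_max_right _ _).trans (le_max_right _ _)
  set ℓ' := Real.log c' with hℓ'
  have l1 : ℓ ≤ Real.log K + ℓ' := by
    have := Real.log_le_log hc0 hcc'
    rwa [Real.log_mul (by linarith) hc'R.ne'] at this
  have l2 : ℓ' ≤ Real.log K + d * ℓ := by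
    have := Real.log_le_log hc'R hrel.up
    rwa [Real.log_mul (by linarith) (by positivity), Real.log_pow] at this
  have l3 : ℓ / 2 ≤ ℓ' := by linarith
  have hdR : (d : ℝ) ≤ D := by exact_mod_cast hdD
  have l4 : ℓ' ≤ ((D : ℝ) + 1) * ℓ := by nlinarith
  have l5 : 4 < ℓ := by linarith
  -- the logarithms of the logarithms
  have h4 : Real.log 4 = 2 * Real.log 2 := by
    rw [show (4 : ℝ) = 2 ^ 2 by norm_num, Real.log_pow]; norm_num
  have l6 : Real.log 4 ≤ Real.log ℓ := Real.log_le_log (by norm_num) l5.le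
  have hl2 : 0 < Real.log 2 := Real.log_pos (by norm_num)
  have l7 : Real.log ℓ / 2 ≤ Real.log ℓ' := by
    have := Real.log_le_log (by linarith) l3
    rw [Real.log_div (by linarith) (by norm_num)] at this
    linarith
  have l8 : 0 < Real.log ℓ := by linarith
  have l9 : √ℓ' ≤ √((D : ℝ) + 1) * √ℓ := by
    rw [← Real.sqrt_mul (by linarith)]
    exact Real.sqrt_le_sqrt l4
  -- the merits
  set Φ := √ℓ / Real.log ℓ with hΦ
  have hκΦ : 1 / (2 * √((D : ℝ) + 1)) * √ℓ' / Real.log ℓ' ≤ Φ := by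
    have e1 : √ℓ' / Real.log ℓ' ≤ √((D : ℝ) + 1) * √ℓ / (Real.log ℓ / 2) :=
      div_le_div₀ (by positivity) l9 (by linarith) l7
    calc 1 / (2 * √((D : ℝ) + 1)) * √ℓ' / Real.log ℓ'
        = 1 / (2 * √((D : ℝ) + 1)) * (√ℓ' / Real.log ℓ') := by ring
      _ ≤ 1 / (2 * √((D : ℝ) + 1)) * (√((D : ℝ) + 1) * √ℓ / (Real.log ℓ / 2)) :=
          mul_le_mul_of_nonneg_left e1 (by positivity)
      _ = Φ := by rw [hΦ]; field_simp
  have hΦK : Real.log K ≤ Φ := by
    have h1 := sqrt_div_log (show 1 < ℓ by linarith)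
    have h2 : 4 * Real.log K ≤ ℓ ^ (1 / 4 : ℝ) := by
      calc 4 * Real.log K = (((4 * Real.log K) ^ (4 : ℕ) : ℝ)) ^ (1 / 4 : ℝ) := by
            rw [← Real.rpow_natCast, ← Real.rpow_mul (by linarith)]; norm_num
        _ ≤ ℓ ^ (1 / 4 : ℝ) := Real.rpow_le_rpow (by positivity) (by linarith) (by norm_num)
    linarith
  refine ⟨a', b', c', hrel.a0, hrel.b0, hrel.cop, hrel.sum, ?_, hT, ?_⟩
  · have : K * X < K * c' := lt_of_lt_of_le hX1 hcc'
    exact lt_of_mul_lt_mul_left this (by linarith)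
  · have hR : (0 : ℝ) < R (a * b * c) := by exact_mod_cast R_pos _
    have hR' : (0 : ℝ) < R (a' * b' * c') := by exact_mod_cast R_pos _
    have hq := hrel.quality hK hd1
    have hlt' : (R (a * b * c) : ℝ) * Real.exp (6.84 * Φ) < c := by
      rw [hΦ]
      rw [mul_div_assoc] at hlt
      exact hlt
    have hK2 : K ^ 2 = Real.exp (2 * Real.log K) := by
      rw [mul_comm, Real.exp_mul, Real.exp_log (by linarith)]
      norm_cast
    have h1 : K ^ 2 * Real.exp Φ ≤ Real.exp (6.84 * Φ) := by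
      rw [hK2, ← Real.exp_add]
      apply Real.exp_le_exp.2
      have : 0 ≤ Φ := by linarith
      linarith
    have h2 : (c : ℝ) * (R (a' * b' * c') * Real.exp Φ) < c * c' := by
      calc (c : ℝ) * (R (a' * b' * c') * Real.exp Φ)
          = (c * R (a' * b' * c')) * Real.exp Φ := by ring
        _ ≤ (K ^ 2 * (c' * R (a * b * c))) * Real.exp Φ :=
            mul_le_mul_of_nonneg_right hq (Real.exp_pos _).le
        _ = c' * (R (a * b * c) * (K ^ 2 * Real.exp Φ)) := by ring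
        _ ≤ c' * (R (a * b * c) * Real.exp (6.84 * Φ)) := by
            apply mul_le_mul_of_nonneg_left _ hc'R.le
            exact mul_le_mul_of_nonneg_left h1 hR.le
        _ < c' * c := mul_lt_mul_of_pos_left hlt' hc'R
        _ = _ := by ring
    have h3 : (R (a' * b' * c') : ℝ) * Real.exp Φ < c' := lt_of_mul_lt_mul_left h2 hc0.le
    refine lt_of_le_of_lt ?_ h3
    apply mul_le_mul_of_nonneg_left _ hR'.le
    exact Real.exp_le_exp.2 hκΦ

end Pool.Agent.H34x.ES
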